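import Mathlib

/-!
# The monadic second-order logic `MS₀` of matroids, and lattice path matroids

* `Formula n` : the formulas of `MS₀` with free variables among `X_0, ..., X_(n-1)`; a sentence is a
  member of `Formula 0`.
* `Formula.Sat M φ v` : the formula `φ` holds in the matroid `M` when the value of the free variable
  `X_i` is the set `v i`; the quantifiers range over the subsets of the ground set.
* `Models M φ` : the matroid `M` satisfies the sentence `φ`.
* `IsLatticePathMatroid M` : the matroid `M` is isomorphic to some `M[P, Q]`.
-/

namespace Pool.Agent.V8H17.LPM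

open Set

universe u

/-- Formulas of `MS₀`. `Formula n` is the type of the formulas all of whose free variables are among
`X_0, ..., X_(n-1)`. The atomic formulas are `ind i`, saying that `X_i` is independent, and `sub i j`,
saying that `X_i ⊆ X_j`. Formulas are closed under negation, conjunction, disjunction, implication,
and the quantifiers over one set variable. A quantifier binds the variable `X_0` of the formula
`φ : Formula (n + 1)`, and the variable `X_(i + 1)` of `φ` is the variable `X_i` of `ex φ` and of
`all φ`. -/
inductive Formula : ℕ → Type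
  | ind {n : ℕ} (i : Fin n) : Formula n
  | sub {n : ℕ} (i j : Fin n) : Formula n
  | neg {n : ℕ} (φ : Formula n) : Formula n
  | conj {n : ℕ} (φ ψ : Formula n) : Formula n
  | disj {n : ℕ} (φ ψ : Formula n) : Formula n
  | imp {n : ℕ} (φ ψ : Formula n) : Formula n
  | ex {n : ℕ} (φ : Formula (n + 1)) : Formula n
  | all {n : ℕ} (φ : Formula (n + 1)) : Formula n

/-- The formula holds in the matroid `M` if the value of the free variable `X_i` is the set `v i`.
Quantified variables range over the subsets of the ground set `M.E`. -/
def Formula.Sat {α : Type u} (M : Matroid α) : {n : ℕ} → Formula n → (Fin n → Set α) → Prop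
  | _, .ind i, v => M.Indep (v i)
  | _, .sub i j, v => v i ⊆ v j
  | _, .neg φ, v => ¬ φ.Sat M v
  | _, .conj φ ψ, v => φ.Sat M v ∧ ψ.Sat M v
  | _, .disj φ ψ, v => φ.Sat M v ∨ ψ.Sat M v
  | _, .imp φ ψ, v => φ.Sat M v → ψ.Sat M v
  | _, .ex φ, v => ∃ X : Set α, X ⊆ M.E ∧ φ.Sat M (Fin.cons X v)
  | _, .all φ, v => ∀ X : Set α, X ⊆ M.E → φ.Sat M (Fin.cons X v)

/-- The sentences of `MS₀`: the formulas without free variables. -/
abbrev Sentence : Type := Formula 0

/-- `M ⊨ φ`: the matroid `M` satisfies the sentence `φ`. -/
def Models {α : Type u} (M : Matroid α) (φ : Sentence) : Prop := φ.Sat M Fin.elim0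

/-- A lattice path with `n` unit steps is given by `R : Fin n → Bool`, where `R i = true` if the step
number `i` is a North step and `R i = false` if it is an East step. This is the number of the North
steps among the first `k` steps, the height reached after `k` steps. -/
def height {n : ℕ} (R : Fin n → Bool) (k : ℕ) : ℕ :=
  (Finset.univ.filter fun i : Fin n => i.val < k ∧ R i = true).card

/-- The path goes from `(0, 0)` to `(m, r)`. -/
def EndsAt {n : ℕ} (m r : ℕ) (R : Fin n → Bool) : Prop := n = m + r ∧ height R n = r

/-- The path `P` never goes above the path `Q`: after any number `k` of steps, `P` is not higher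
than `Q`. -/
def NeverAbove {n : ℕ} (P Q : Fin n → Bool) : Prop := ∀ k : ℕ, height P k ≤ height Q k

/-- The bases of the lattice path matroid `M[P, Q]` on the ground set of the `n = m + r` steps: the
sets of the North steps of the lattice paths `R` from `(0, 0)` to `(m, r)` in the region between `P`
and `Q`. -/
def PathBases {n : ℕ} (m r : ℕ) (P Q : Fin n → Bool) : Set (Set (Fin n)) :=
  {B | ∃ R : Fin n → Bool, EndsAt m r R ∧ NeverAbove P R ∧ NeverAbove R Q ∧ B = {i | R i = true}}

/-- The matroid `M` is isomorphic to `M[P, Q]` for two lattice paths `P`, `Q` from `(0, 0)` to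
`(m, r)`, `P` never going above `Q`: some bijection from the ground set to the set of the steps maps
the bases of `M` to the sets of `PathBases m r P Q`. -/
def IsLatticePathMatroid {α : Type u} (M : Matroid α) : Prop :=
  ∃ (n m r : ℕ) (P Q : Fin n → Bool), EndsAt m r P ∧ EndsAt m r Q ∧ NeverAbove P Q ∧
    ∃ e : M.E ≃ Fin n, ∀ B : Set M.E,
      M.IsBase (Subtype.val '' B) ↔ e '' B ∈ PathBases m r P Q

end Pool.Agent.V8H17.LPM
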