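import Mathlib
import Pool.Agent.V8H17.LPM.Defs

/-!
# Ranks in finite matroids
-/

namespace Pool.Agent.V8H17.LPM

open Set

variable {α : Type*} {M : Matroid α} {X Y Z A B C I J K S : Set α}

/-- The rank of a set in a finite matroid, a natural number. -/
noncomputable def rk (M : Matroid α) (X : Set α) : ℕ := (M.eRk X).toNat

variable (hM : M.E.Finite)

include hM

theorem eRk_ne_top (X : Set α) : M.eRk X ≠ ⊤ := by
  have h1 : M.eRk X ≤ M.E.encard := (M.eRk_le_eRank X).trans M.eRank_le_encard_ground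
  have h2 : M.E.encard < ⊤ := hM.encard_lt_top
  exact ne_top_of_lt (lt_of_le_of_lt h1 h2)

theorem coe_rk (X : Set α) : ((rk M X : ℕ) : ℕ∞) = M.eRk X :=
  ENat.natCast_toNat (eRk_ne_top hM X)

theorem rk_mono (h : X ⊆ Y) : rk M X ≤ rk M Y := by
  have h1 := M.eRk_mono h
  rw [← coe_rk hM, ← coe_rk hM] at h1
  exact_mod_cast h1

theorem rk_submod (X Y : Set α) : rk M (X ∩ Y) + rk M (X ∪ Y) ≤ rk M X + rk M Y := by
  have h1 := M.eRk_inter_add_eRk_union_le X Y
  rw [← coe_rk hM, ← coe_rk hM, ← coe_rk hM, ← coe_rk hM] at h1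
  exact_mod_cast h1

theorem rk_union_le (X Y : Set α) : rk M (X ∪ Y) ≤ rk M X + rk M Y := by
  have := rk_submod hM X Y
  omega

theorem rk_indep (h : M.Indep I) : rk M I = I.ncard := by
  have h1 := h.eRk_eq_encard
  have hf : I.Finite := hM.subset h.subset_ground
  rw [← coe_rk hM, ← hf.cast_ncard_eq] at h1
  exact_mod_cast h1

theorem rk_basis (h : M.IsBasis I X) : rk M X = I.ncard := by
  have h1 := h.eRk_eq_encard
  have hf : I.Finite := hM.subset h.indep.subset_ground
  rw [← coe_rk hM, ← hf.cast_ncard_eq] at h1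
  exact_mod_cast h1

theorem rk_circuit (h : M.IsCircuit C) : rk M C + 1 = C.ncard := by
  have h1 := h.eRk_add_one_eq
  have hf : C.Finite := hM.subset h.subset_ground
  rw [← coe_rk hM, ← hf.cast_ncard_eq] at h1
  exact_mod_cast h1

theorem ncard_le_rk (h : M.Indep I) (hI : I ⊆ X) : I.ncard ≤ rk M X := by
  rw [← rk_indep hM h]
  exact rk_mono hM hI

theorem rk_le_ncard (h : X ⊆ M.E) : rk M X ≤ X.ncard := by
  obtain ⟨I, hI⟩ := M.exists_isBasis X h
  rw [rk_basis hM hI]
  exact ncard_le_ncard hI.subset (hM.subset h)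

theorem base_iff : M.IsBase B ↔ M.Indep B ∧ B.ncard = rk M M.E := by
  constructor
  · intro h
    refine ⟨h.indep, ?_⟩
    have h1 : M.IsBasis B M.E := h.isBasis_ground
    exact (rk_basis hM h1).symm
  · rintro ⟨h1, h2⟩
    obtain ⟨B', hB', hsub⟩ := h1.exists_isBase_superset
    have h3 : M.IsBasis B' M.E := hB'.isBasis_ground
    have h4 := rk_basis hM h3
    have h5 : B = B' :=
      eq_of_subset_of_ncard_le hsub (by omega) (hM.subset hB'.subset_ground)
    rw [h5]
    exact hB'

/-- Two disjoint sets not crossed by circuits of their union. -/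
theorem rk_add_of_no_cross (hX : X ⊆ M.E) (hY : Y ⊆ M.E)
    (h : ∀ C, M.IsCircuit C → C ⊆ X ∪ Y → C ⊆ X ∨ C ⊆ Y) (hd : Disjoint X Y) :
    rk M (X ∪ Y) = rk M X + rk M Y := by
  apply le_antisymm (rk_union_le hM X Y)
  obtain ⟨I, hI⟩ := M.exists_isBasis X hX
  obtain ⟨J, hJ⟩ := M.exists_isBasis Y hY
  have hIJ : M.Indep (I ∪ J) := by
    by_contra hcon
    have hsub : I ∪ J ⊆ M.E := union_subset (hI.subset.trans hX) (hJ.subset.trans hY)
    have hdep : M.Dep (I ∪ J) := (M.not_indep_iff hsub).1 hcon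
    obtain ⟨C, hC, hCc⟩ := hdep.exists_isCircuit_subset
    rcases h C hCc (hC.trans (union_subset_union hI.subset hJ.subset)) with h1 | h1
    · apply hCc.not_indep
      apply hI.indep.subset
      intro c hc
      rcases hC hc with h2 | h2
      · exact h2
      · exact absurd (hJ.subset h2) (disjoint_left.1 hd (h1 hc))
    · apply hCc.not_indep
      apply hJ.indep.subset
      intro c hc
      rcases hC hc with h2 | h2
      · exact absurd (h1 hc) (disjoint_left.1 hd (hI.subset h2))
      · exact h2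
  have h1 : (I ∪ J).ncard ≤ rk M (X ∪ Y) :=
    ncard_le_rk hM hIJ (union_subset_union hI.subset hJ.subset)
  have h2 : (I ∪ J).ncard = I.ncard + J.ncard := by
    apply ncard_union_eq
    · exact hd.mono hI.subset hJ.subset
    · exact hM.subset (hI.subset.trans hX)
    · exact hM.subset (hJ.subset.trans hY)
  rw [rk_basis hM hI, rk_basis hM hJ]
  omega

/-- A circuit which crosses two disjoint sets. -/
theorem rk_lt_of_cross (hX : X ⊆ M.E) (hY : Y ⊆ M.E) (hC : M.IsCircuit C) (hCXY : C ⊆ X ∪ Y)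
    (hCX : ¬ C ⊆ X) (hCY : ¬ C ⊆ Y) : rk M (X ∪ Y) < rk M X + rk M Y := by
  have h1 : M.Indep (C ∩ X) := hC.ssubset_indep
    (ssubset_of_subset_not_subset inter_subset_left fun h => hCX (h.trans inter_subset_right))
  have h2 : M.Indep (C ∩ Y) := hC.ssubset_indep
    (ssubset_of_subset_not_subset inter_subset_left fun h => hCY (h.trans inter_subset_right))
  obtain ⟨I, hI, hCI⟩ := h1.subset_isBasis_of_subset inter_subset_right hX
  obtain ⟨J, hJ, hCJ⟩ := h2.subset_isBasis_of_subset inter_subset_right hY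
  have hIf : I.Finite := hM.subset (hI.subset.trans hX)
  have hJf : J.Finite := hM.subset (hJ.subset.trans hY)
  have h3 : C ⊆ I ∪ J := by
    intro c hc
    rcases hCXY hc with h | h
    · exact Or.inl (hCI ⟨hc, h⟩)
    · exact Or.inr (hCJ ⟨hc, h⟩)
  obtain ⟨c, hc⟩ := hC.nonempty
  have h4 : X ∪ Y ⊆ M.closure ((I ∪ J) \ {c}) := by
    have h5 : c ∈ M.closure ((I ∪ J) \ {c}) :=
      M.closure_subset_closure (sdiff_subset_sdiff_left h3)
        (hC.mem_closure_sdiff_singleton_of_mem hc)
    rw [Matroid.closure_sdiff_singleton_eq_closure h5]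
    apply union_subset
    · exact hI.subset_closure.trans (M.closure_subset_closure subset_union_left)
    · exact hJ.subset_closure.trans (M.closure_subset_closure subset_union_right)
  have h6 : rk M (X ∪ Y) ≤ rk M ((I ∪ J) \ {c}) := by
    have h7 := M.eRk_mono h4
    rw [M.eRk_closure_eq, ← coe_rk hM, ← coe_rk hM] at h7
    exact_mod_cast h7
  have h8 : rk M ((I ∪ J) \ {c}) ≤ ((I ∪ J) \ {c}).ncard := by
    apply rk_le_ncard hM
    exact sdiff_subset.trans (union_subset (hI.subset.trans hX) (hJ.subset.trans hY))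
  have h9 : ((I ∪ J) \ {c}).ncard < (I ∪ J).ncard :=
    ncard_sdiff_singleton_lt_of_mem (h3 hc) (hIf.union hJf)
  have h10 : (I ∪ J).ncard ≤ I.ncard + J.ncard := ncard_union_le I J
  rw [rk_basis hM hI, rk_basis hM hJ]
  omega

end Pool.Agent.V8H17.LPM
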