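import Mathlib
import Pool.Agent.V8H17.LPM.Rank

/-!
# Matroids with a path structure: independent sets and circuits
-/

namespace Pool.Agent.V8H17.LPM

open Set

variable {α : Type*} {M : Matroid α} {f : α → ℕ} {n r : ℕ} {p q : ℕ → ℕ}

/-- `f` numbers the elements, and the bases are the sets of `r` elements whose numbers of elements
before `k` lie between `p k` and `q k`. -/
structure PathStr (M : Matroid α) (f : α → ℕ) (n r : ℕ) (p q : ℕ → ℕ) : Prop where
  bij : BijOn f M.E (Iio n)
  q_step : ∀ k < n, q (k + 1) ≤ q k + 1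
  q_zero : q 0 = 0
  q_end : q n = r
  base : ∀ B ⊆ M.E, M.IsBase B ↔ B.ncard = r ∧
    ∀ k ≤ n, p k ≤ (B ∩ {x | f x < k}).ncard ∧ (B ∩ {x | f x < k}).ncard ≤ q k

open Classical in
/-- The highest path through `I` below `q`, from the end. -/
noncomputable def back (f : α → ℕ) (n : ℕ) (q : ℕ → ℕ) (I : Set α) : ℕ → ℤ
  | 0 => q n
  | m + 1 => if (∃ x ∈ I, f x = n - (m + 1)) then back f n q I m - 1
      else min (q (n - (m + 1)) : ℤ) (back f n q I m)

open Classical in
theorem back_succ (f : α → ℕ) (q : ℕ → ℕ) (I : Set α) {k : ℕ} (hk : k < n) :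
    back f n q I (n - k) = if (∃ x ∈ I, f x = k) then back f n q I (n - (k + 1)) - 1
      else min (q k : ℤ) (back f n q I (n - (k + 1))) := by
  obtain ⟨m, rfl⟩ : ∃ m, n = k + (m + 1) := ⟨n - k - 1, by omega⟩
  have e1 : k + (m + 1) - k = m + 1 := by omega
  have e2 : k + (m + 1) - (k + 1) = m := by omega
  have e3 : k + (m + 1) - (m + 1) = k := by omega
  rw [e1, e2, back, e3]

theorem PathStr.indep (h : PathStr M f n r p q) (hM : M.E.Finite) {I : Set α} (hI : I ⊆ M.E)
    (hcr : ∀ a b, a ≤ b → b ≤ n → p a + (I ∩ {x | a ≤ f x ∧ f x < b}).ncard ≤ q b) :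
    M.Indep I := by
  classical
  set g : ℕ → ℤ := fun k => back f n q I (n - k) with hg
  have hgs : ∀ k < n, g k = if (∃ x ∈ I, f x = k) then g (k + 1) - 1
      else min (q k : ℤ) (g (k + 1)) := fun k hk => back_succ f q I hk
  have hgn : g n = q n := by simp [hg, back]
  -- upper bound
  have hup : ∀ m, m ≤ n → g (n - m) ≤ q (n - m) := by
    intro m
    induction m with
    | zero => intro _; simp only [Nat.sub_zero]; exact hgn.le
    | succ m ih =>
      intro hm
      have e1 : n - (m + 1) + 1 = n - m := by omega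
      have h1 := hgs (n - (m + 1)) (by omega)
      rw [e1] at h1
      have h2 := ih (by omega)
      have h3 := h.q_step (n - (m + 1)) (by omega)
      rw [e1] at h3
      rw [h1]
      split_ifs
      · have h4 : (q (n - m) : ℤ) ≤ q (n - (m + 1)) + 1 := by exact_mod_cast h3
        omega
      · exact min_le_left _ _
  have hup' : ∀ k ≤ n, g k ≤ q k := by
    intro k hk
    have := hup (n - k) (by omega)
    rwa [Nat.sub_sub_self hk] at this
  -- steps
  have hstep : ∀ k < n, g (k + 1) = g k ∨ g (k + 1) = g k + 1 := by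
    intro k hk
    have h1 := hgs k hk
    have h2 := hup' (k + 1) (by omega)
    have h3 : (q (k + 1) : ℤ) ≤ q k + 1 := by exact_mod_cast h.q_step k hk
    split_ifs at h1 with h4
    · right; omega
    · rcases le_total (q k : ℤ) (g (k + 1)) with h5 | h5
      · rw [min_eq_left h5] at h1
        omega
      · rw [min_eq_right h5] at h1
        left; exact h1.symm
  have hstepI : ∀ k < n, (∃ x ∈ I, f x = k) → g (k + 1) = g k + 1 := by
    intro k hk hx
    have h1 := hgs k hk
    rw [if_pos hx] at h1
    omega
  have hsplit : ∀ k < n, ∀ j, k + 1 ≤ j →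
      (I ∩ {x | k ≤ f x ∧ f x < j}).ncard =
        (I ∩ {x | k + 1 ≤ f x ∧ f x < j}).ncard + if (∃ x ∈ I, f x = k) then 1 else 0 := by
    intro k hk j hj
    split_ifs with h1
    · obtain ⟨x, hxI, hx⟩ := h1
      have e1 : I ∩ {x | k ≤ f x ∧ f x < j} = insert x (I ∩ {x | k + 1 ≤ f x ∧ f x < j}) := by
        ext y
        simp only [mem_inter_iff, mem_ofPred_eq, mem_insert_iff]
        constructor
        · rintro ⟨h1, h2, h3⟩
          by_cases h4 : f y = k
          · left
            exact h.bij.injOn (hI h1) (hI hxI) (h4.trans hx.symm)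
          · right
            exact ⟨h1, by omega, h3⟩
        · rintro (rfl | ⟨h1, h2, h3⟩)
          · exact ⟨hxI, by omega, by omega⟩
          · exact ⟨h1, by omega, h3⟩
      have hnot : x ∉ I ∩ {x | k + 1 ≤ f x ∧ f x < j} := by
        simp only [mem_inter_iff, mem_ofPred_eq, not_and]
        intro _ h2
        omega
      rw [e1, ncard_insert_of_notMem hnot ((hM.subset hI).subset inter_subset_left)]
    · rw [add_zero]
      congr 1
      ext y
      simp only [mem_inter_iff, mem_ofPred_eq]
      constructor
      · rintro ⟨h2, h3, h4⟩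
        refine ⟨h2, ?_, h4⟩
        rcases h3.eq_or_lt with h5 | h5
        · exact absurd ⟨y, h2, h5.symm⟩ h1
        · omega
      · rintro ⟨h2, h3, h4⟩
        exact ⟨h2, by omega, h4⟩
  -- lower bound
  have hlow : ∀ m, m ≤ n → ∀ t : ℤ,
      (∀ j, n - m ≤ j → j ≤ n → t + (I ∩ {x | n - m ≤ f x ∧ f x < j}).ncard ≤ q j) →
      t ≤ g (n - m) := by
    intro m
    induction m with
    | zero =>
      intro _ t ht
      have h1 := ht n (by omega) le_rfl
      simp only [Nat.sub_zero] at h1 ⊢
      rw [hgn]
      have : (0 : ℤ) ≤ ((I ∩ {x | n ≤ f x ∧ f x < n}).ncard : ℤ) := by positivity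
      linarith
    | succ m ih =>
      intro hm t ht
      have e1 : n - (m + 1) + 1 = n - m := by omega
      have h1 := hgs (n - (m + 1)) (by omega)
      rw [e1] at h1
      have hsp := hsplit (n - (m + 1)) (by omega)
      rw [e1] at hsp
      rw [h1]
      split_ifs at hsp ⊢ with hx
      · have h2 := ih (by omega) (t + 1) (by
          intro j hj hjn
          have h3 := ht j (by omega) hjn
          have h4 := hsp j hj
          rw [h4] at h3
          push_cast at h3
          linarith)
        linarith
      · apply le_min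
        · have h3 := ht (n - (m + 1)) le_rfl (by omega)
          have : (0 : ℤ) ≤ ((I ∩ {x | n - (m + 1) ≤ f x ∧ f x < n - (m + 1)}).ncard : ℤ) := by
            positivity
          linarith
        · apply ih (by omega) t
          intro j hj hjn
          have h3 := ht j (by omega) hjn
          have h4 := hsp j hj
          rw [h4] at h3
          simpa using h3
  have hlow' : ∀ k ≤ n, (p k : ℤ) ≤ g k := by
    intro k hk
    have h1 := hlow (n - k) (by omega) (p k)
    rw [Nat.sub_sub_self hk] at h1
    apply h1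
    intro j hj hjn
    exact_mod_cast hcr k j hj hjn
  have hg0 : g 0 = 0 := by
    apply le_antisymm
    · have := hup' 0 (Nat.zero_le _)
      rw [h.q_zero] at this
      exact_mod_cast this
    · have h1 := hlow' 0 (Nat.zero_le _)
      have : (0 : ℤ) ≤ (p 0 : ℤ) := by positivity
      linarith
  -- the base
  set B : Set α := {x | x ∈ M.E ∧ g (f x + 1) = g (f x) + 1} with hB
  have hBE : B ⊆ M.E := fun x hx => hx.1
  have hBf : B.Finite := hM.subset hBE
  have hcount : ∀ k ≤ n, ((B ∩ {x | f x < k}).ncard : ℤ) = g k := by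
    intro k
    induction k with
    | zero => intro _; simp [hg0]
    | succ k ih =>
      intro hk
      have h1 := ih (by omega)
      obtain ⟨x, hxE, hx⟩ := h.bij.surjOn (show k ∈ Iio n from hk)
      by_cases h2 : g (k + 1) = g k + 1
      · have e1 : B ∩ {y | f y < k + 1} = insert x (B ∩ {y | f y < k}) := by
          ext y
          simp only [mem_inter_iff, mem_ofPred_eq, mem_insert_iff]
          constructor
          · rintro ⟨h3, h4⟩
            by_cases h5 : f y = k
            · left
              exact h.bij.injOn (hBE h3) hxE (h5.trans hx.symm)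
            · right
              exact ⟨h3, by omega⟩
          · rintro (rfl | ⟨h3, h4⟩)
            · refine ⟨⟨hxE, ?_⟩, by omega⟩
              rw [hx]; exact h2
            · exact ⟨h3, by omega⟩
        have hnot : x ∉ B ∩ {y | f y < k} := by
          simp only [mem_inter_iff, mem_ofPred_eq, not_and]
          intro _
          omega
        rw [e1, ncard_insert_of_notMem hnot (hBf.subset inter_subset_left)]
        push_cast
        rw [h1, h2]
      · have h3 : g (k + 1) = g k := (hstep k (by omega)).resolve_right h2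
        have e1 : B ∩ {y | f y < k + 1} = B ∩ {y | f y < k} := by
          ext y
          simp only [mem_inter_iff, mem_ofPred_eq]
          constructor
          · rintro ⟨h4, h5⟩
            refine ⟨h4, ?_⟩
            by_contra h6
            have h7 : f y = k := by omega
            have h8 := h4.2
            rw [h7] at h8
            exact h2 h8
          · rintro ⟨h4, h5⟩
            exact ⟨h4, by omega⟩
        rw [e1, h1, h3]
  have hBn : B ∩ {x | f x < n} = B := by
    apply inter_eq_left.2
    intro x hx
    exact h.bij.mapsTo (hBE hx)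
  have hbase : M.IsBase B := by
    rw [h.base B hBE]
    constructor
    · have h1 := hcount n le_rfl
      rw [hBn, hgn, h.q_end] at h1
      exact_mod_cast h1
    · intro k hk
      have h1 := hcount k hk
      have h2 := hlow' k hk
      have h3 := hup' k hk
      rw [← h1] at h2 h3
      exact ⟨by exact_mod_cast h2, by exact_mod_cast h3⟩
  apply hbase.indep.subset
  intro x hx
  refine ⟨hI hx, hstepI (f x) (h.bij.mapsTo (hI hx)) ⟨x, hx, rfl⟩⟩

/-- The rank of the first elements. -/
theorem PathStr.rk_lt (h : PathStr M f n r p q) (hM : M.E.Finite) {k : ℕ} (hk : k ≤ n) :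
    rk M {x | x ∈ M.E ∧ f x < k} ≤ q k := by
  obtain ⟨I, hI⟩ := M.exists_isBasis {x | x ∈ M.E ∧ f x < k} (fun x hx => hx.1)
  obtain ⟨B, hB, hIB⟩ := hI.indep.exists_isBase_superset
  have h1 := ((h.base B hB.subset_ground).1 hB).2 k hk
  rw [rk_basis hM hI]
  refine le_trans (ncard_le_ncard ?_ ?_) h1.2
  · exact subset_inter hIB fun x hx => (hI.subset hx).2
  · exact (hM.subset hB.subset_ground).subset inter_subset_left

theorem PathStr.rk_ground (h : PathStr M f n r p q) (hM : M.E.Finite) : rk M M.E = r := by
  obtain ⟨B, hB⟩ := M.exists_isBase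
  have h1 := ((h.base B hB.subset_ground).1 hB).1
  rw [← h1]
  exact ((base_iff hM).1 hB).2.symm

/-- The rank of the last elements. -/
theorem PathStr.rk_ge (h : PathStr M f n r p q) (hM : M.E.Finite) {k : ℕ} (hk : k ≤ n) :
    rk M {x | x ∈ M.E ∧ k ≤ f x} + p k ≤ r := by
  obtain ⟨I, hI⟩ := M.exists_isBasis {x | x ∈ M.E ∧ k ≤ f x} (fun x hx => hx.1)
  obtain ⟨B, hB, hIB⟩ := hI.indep.exists_isBase_superset
  have h1 := (h.base B hB.subset_ground).1 hB
  have h2 := (h1.2 k hk).1
  have hBf : B.Finite := hM.subset hB.subset_ground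
  have h3 : (B ∩ {x | f x < k}).ncard + I.ncard ≤ B.ncard := by
    have hd : Disjoint (B ∩ {x | f x < k}) I := by
      rw [disjoint_left]
      rintro x ⟨_, h4⟩ h5
      have h6 := (hI.subset h5).2
      simp only [mem_ofPred_eq] at h4
      omega
    rw [← ncard_union_eq hd (hBf.subset inter_subset_left) (hBf.subset hIB)]
    exact ncard_le_ncard (union_subset inter_subset_left hIB) hBf
  rw [rk_basis hM hI]
  have h4 := h1.1
  omega

/-- Every circuit is contained in an interval and is larger than the number given by the ranks. -/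
theorem PathStr.circuit (h : PathStr M f n r p q) (hM : M.E.Finite) {C : Set α}
    (hC : M.IsCircuit C) : ∃ a b : ℕ, a ≤ b ∧ (∀ x ∈ C, a ≤ f x ∧ f x < b) ∧
      rk M {x | x ∈ M.E ∧ f x < b} + rk M {x | x ∈ M.E ∧ a ≤ f x} + 1 ≤ C.ncard + rk M M.E := by
  have h1 : ¬ ∀ a b, a ≤ b → b ≤ n → p a + (C ∩ {x | a ≤ f x ∧ f x < b}).ncard ≤ q b :=
    fun hcon => hC.not_indep (h.indep hM hC.subset_ground hcon)
  push Not at h1
  obtain ⟨a, b, hab, hbn, hlt⟩ := h1
  have hsub : C ⊆ {x | a ≤ f x ∧ f x < b} := by
    by_contra hcon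
    have h2 : M.Indep (C ∩ {x | a ≤ f x ∧ f x < b}) := hC.ssubset_indep
      (ssubset_of_subset_not_subset inter_subset_left fun h3 => hcon (h3.trans inter_subset_right))
    obtain ⟨B, hB, hIB⟩ := h2.exists_isBase_superset
    have hBf : B.Finite := hM.subset hB.subset_ground
    have h3 := ((h.base B hB.subset_ground).1 hB).2
    have h4 := (h3 a (hab.trans hbn)).1
    have h5 := (h3 b hbn).2
    have h6 : (B ∩ {x | f x < a}).ncard + (C ∩ {x | a ≤ f x ∧ f x < b}).ncard ≤
        (B ∩ {x | f x < b}).ncard := by
      have hd : Disjoint (B ∩ {x | f x < a}) (C ∩ {x | a ≤ f x ∧ f x < b}) := by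
        rw [disjoint_left]
        rintro x ⟨_, h7⟩ ⟨_, h8⟩
        simp only [mem_ofPred_eq] at h7 h8
        omega
      rw [← ncard_union_eq hd (hBf.subset inter_subset_left)
        ((hM.subset hC.subset_ground).subset inter_subset_left)]
      apply ncard_le_ncard _ (hBf.subset inter_subset_left)
      apply union_subset
      · intro x hx
        exact ⟨hx.1, lt_of_lt_of_le hx.2 hab⟩
      · intro x hx
        exact ⟨hIB hx, hx.2.2⟩
    omega
  refine ⟨a, b, hab, fun x hx => hsub hx, ?_⟩
  rw [inter_eq_left.2 hsub] at hlt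
  have h2 := h.rk_lt hM hbn
  have h3 := h.rk_ge hM (hab.trans hbn)
  rw [h.rk_ground hM]
  omega

end Pool.Agent.V8H17.LPM
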