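import Mathlib
import Pool.Agent.V8H17.LPM.Path

/-!
# The property expressed by the sentence, and its proof for lattice path matroids
-/

namespace Pool.Agent.V8H17.LPM

open Set

universe u

variable {α : Type u} {M : Matroid α} {X Y Z A B C I J K S x y : Set α}

/-- `X` is connected. -/
def Conn (M : Matroid α) (X : Set α) : Prop :=
  ∀ A ⊆ X, A.Nonempty → ¬ X ⊆ A → ∃ C, M.IsCircuit C ∧ C ⊆ X ∧ ¬ C ⊆ A ∧ ¬ Disjoint C A

/-- `S` is a separator. -/
def Sep (M : Matroid α) (S : Set α) : Prop := ∀ C, M.IsCircuit C → C ⊆ S ∨ Disjoint C S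

/-- The connected sets which contain `x` and are flats in the restriction to `K`. -/
def Fam (M : Matroid α) (K x X : Set α) : Prop :=
  X ⊆ K ∧ x ⊆ X ∧ Conn M X ∧ ∀ Z ⊆ K, X ⊆ Z → (∃ I ⊆ X, M.IsBasis I Z) → Z ⊆ X

/-- The conditions on the parameters `x`, `y`. -/
def GoodAt (M : Matroid α) (K x y : Set α) : Prop :=
  (∀ X ⊆ M.E, ∀ X' ⊆ M.E, Fam M K x X → Fam M K x X' → X ⊆ X' ∨ X' ⊆ X) ∧
  (∀ Y ⊆ M.E, ∀ Y' ⊆ M.E, Fam M K y Y → Fam M K y Y' → Y ⊆ Y' ∨ Y' ⊆ Y) ∧
  (∀ X ⊆ M.E, ∀ Y ⊆ M.E, Fam M K x X → Fam M K y Y → Disjoint X Y ∨ K ⊆ X ∪ Y) ∧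
  ∀ C ⊆ M.E, M.IsCircuit C → C ⊆ K → ∃ X ⊆ M.E, ∃ Y ⊆ M.E, Fam M K x X ∧ Fam M K y Y ∧
    K ⊆ X ∪ Y ∧ C ⊆ X ∩ Y ∧ (∃ I ⊆ C, M.IsBasis I (X ∩ Y)) ∧
    ∃ L ⊆ K, M.Indep L ∧ (∃ I ⊆ L, M.IsBasis I X) ∧ ∃ J ⊆ L, M.IsBasis J Y

/-- The property expressed by the sentence. -/
def Good (M : Matroid α) : Prop :=
  ∀ K ⊆ M.E, Sep M K → Conn M K → ∃ x ⊆ M.E, ∃ y ⊆ M.E, GoodAt M K x y

theorem rk_sep (hM : M.E.Finite) (hS : Sep M S) (hX : X ⊆ M.E) :
    rk M X = rk M (X ∩ S) + rk M (X \ S) := by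
  conv_lhs => rw [← inter_union_sdiff X S]
  apply rk_add_of_no_cross hM (inter_subset_left.trans hX) (sdiff_subset.trans hX)
  · intro C hC hCX
    rw [inter_union_sdiff] at hCX
    rcases hS C hC with h | h
    · exact Or.inl (subset_inter hCX h)
    · exact Or.inr (subset_sdiff.2 ⟨hCX, h⟩)
  · exact disjoint_left.2 fun a ha hb => hb.2 ha.2

/-- Connected sets: the rank function is strictly subadditive. -/
theorem Conn.rk_lt (hM : M.E.Finite) (hK : K ⊆ M.E) (h : Conn M K) (hA : A ⊆ K)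
    (hAn : A.Nonempty) (hAK : (K \ A).Nonempty) : rk M K < rk M A + rk M (K \ A) := by
  obtain ⟨C, hC, hCK, h1, h2⟩ := h A hA hAn (by
    intro hcon
    obtain ⟨e, he⟩ := hAK
    exact he.2 (hcon he.1))
  have h3 : A ∪ K \ A = K := union_sdiff_cancel hA
  have h4 := rk_lt_of_cross hM (hA.trans hK) (sdiff_subset.trans hK) hC (by rw [h3]; exact hCK) h1
    (by
      intro hcon
      apply h2
      exact disjoint_left.2 fun a ha hb => (hcon ha).2 hb)
  rwa [h3] at h4

/-- A set whose rank function splits for no partition is connected. -/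
theorem conn_of_rk (hM : M.E.Finite) (hX : X ⊆ M.E)
    (h : ∀ A ⊆ X, A.Nonempty → (X \ A).Nonempty → rk M A + rk M (X \ A) ≠ rk M X) : Conn M X := by
  intro A hA hAn hXA
  by_contra hcon
  push Not at hcon
  obtain ⟨e, he, heA⟩ := not_subset.1 hXA
  apply h A hA hAn ⟨e, he, heA⟩
  rw [← rk_add_of_no_cross hM (hA.trans hX) (sdiff_subset.trans hX), union_sdiff_cancel hA]
  · intro C hC hCX
    rw [union_sdiff_cancel hA] at hCX
    by_cases h1 : C ⊆ A
    · exact Or.inl h1
    · exact Or.inr (subset_sdiff.2 ⟨hCX, hcon C hC hCX h1⟩)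
  · exact disjoint_sdiff_right

/-- The key lemma on connectedness. -/
theorem conn_of_modular (hM : M.E.Finite) (hK : K ⊆ M.E) (hKc : Conn M K) (hX : X ⊆ K) (hY : Y ⊆ K)
    (hXY : K ⊆ X ∪ Y) (hC : M.IsCircuit C) (hCX : C ⊆ X) (hCY : C ⊆ Y)
    (hr : rk M X + rk M Y ≤ rk M C + rk M K) : Conn M X := by
  apply conn_of_rk hM (hX.trans hK)
  -- it is enough to treat the part that does not contain the circuit
  have key : ∀ A' ⊆ X, A'.Nonempty → C ⊆ X \ A' → rk M (X \ A') + rk M A' ≠ rk M X := by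
    intro A' hA' hA'n hCA heq
    have h1 : (K \ A').Nonempty := by
      obtain ⟨c, hc⟩ := hC.nonempty
      exact ⟨c, hX (hCX hc), (hCA hc).2⟩
    have h2 := hKc.rk_lt hM hK (hA'.trans hX) hA'n h1
    have h3 : K \ A' ⊆ (X \ A') ∪ Y := by
      intro e he
      rcases hXY he.1 with h | h
      · exact Or.inl ⟨h, he.2⟩
      · exact Or.inr h
    have h4 := rk_mono hM h3
    have h5 := rk_submod hM (X \ A') Y
    have h6 : rk M C ≤ rk M ((X \ A') ∩ Y) := rk_mono hM (subset_inter hCA hCY)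
    omega
  intro A hA hAn hXA heq
  have h0 : C ⊆ A ∨ C ⊆ X \ A := by
    by_contra hcon
    push Not at hcon
    have h1 := rk_lt_of_cross hM ((hA.trans hX).trans hK) ((sdiff_subset.trans hX).trans hK) hC
      (by rw [union_sdiff_cancel hA]; exact hCX) hcon.1 hcon.2
    rw [union_sdiff_cancel hA] at h1
    omega
  rcases h0 with h1 | h1
  · apply key (X \ A) sdiff_subset hXA
    · rw [sdiff_sdiff_cancel_left hA]; exact h1
    · rw [sdiff_sdiff_cancel_left hA]; exact heq
  · apply key A hA hAn h1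
    omega

/-- The closure in the restriction. -/
theorem fam_closure (hM : M.E.Finite) (hK : K ⊆ M.E) (hX : X ⊆ K) (hx : x ⊆ X)
    (hc : Conn M (M.closure X ∩ K)) : Fam M K x (M.closure X ∩ K) := by
  have hXc : X ⊆ M.closure X ∩ K := subset_inter (M.subset_closure X (hX.trans hK)) hX
  refine ⟨inter_subset_right, hx.trans hXc, hc, ?_⟩
  rintro Z hZK hXZ ⟨I, hI, hIZ⟩
  refine subset_inter ?_ hZK
  calc Z ⊆ M.closure I := hIZ.subset_closure
    _ ⊆ M.closure (M.closure X) := M.closure_subset_closure (hI.trans inter_subset_left)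
    _ = M.closure X := M.closure_closure X

theorem rk_closure_inter (hM : M.E.Finite) (hK : K ⊆ M.E) (hX : X ⊆ K) :
    rk M (M.closure X ∩ K) = rk M X := by
  apply le_antisymm
  · have h1 : rk M (M.closure X) = rk M X := by
      unfold rk
      rw [M.eRk_closure_eq]
    rw [← h1]
    exact rk_mono hM inter_subset_left
  · exact rk_mono hM (subset_inter (M.subset_closure X (hX.trans hK)) hX)

/-- If the rank of a subset is as large as possible, it contains a basis. -/
theorem exists_basis_subset (hM : M.E.Finite) (hCX : C ⊆ X) (hX : X ⊆ M.E)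
    (hr : rk M X ≤ rk M C) : ∃ I ⊆ C, M.IsBasis I X := by
  obtain ⟨I, hI⟩ := M.exists_isBasis C (hCX.trans hX)
  obtain ⟨J, hJ, hIJ⟩ := hI.indep.subset_isBasis_of_subset (hI.subset.trans hCX) hX
  have h1 : I = J := by
    apply eq_of_subset_of_ncard_le hIJ _ (hM.subset (hJ.subset.trans hX))
    rw [← rk_basis hM hJ, ← rk_basis hM hI]
    exact hr
  exact ⟨I, hI.subset, h1 ▸ hJ⟩

/-- Bases of two sets in a common independent set. -/
theorem exists_common_indep (hM : M.E.Finite) (hX : X ⊆ M.E) (hY : Y ⊆ M.E)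
    (hr : rk M X + rk M Y ≤ rk M (X ∩ Y) + rk M (X ∪ Y)) :
    ∃ L ⊆ X ∪ Y, M.Indep L ∧ (∃ I ⊆ L, M.IsBasis I X) ∧ ∃ J ⊆ L, M.IsBasis J Y := by
  obtain ⟨I0, hI0⟩ := M.exists_isBasis (X ∩ Y) (inter_subset_left.trans hX)
  obtain ⟨I, hI, h0I⟩ := hI0.indep.subset_isBasis_of_subset (hI0.subset.trans inter_subset_left) hX
  obtain ⟨J, hJ, h0J⟩ := hI0.indep.subset_isBasis_of_subset (hI0.subset.trans inter_subset_right) hY
  have hIf : I.Finite := hM.subset (hI.subset.trans hX)
  have hJf : J.Finite := hM.subset (hJ.subset.trans hY)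
  have hLE : I ∪ J ⊆ M.E := union_subset (hI.subset.trans hX) (hJ.subset.trans hY)
  have h1 : (I ∪ J).ncard + (I ∩ J).ncard = I.ncard + J.ncard := ncard_union_add_ncard_inter I J hIf hJf
  have h2 : I0.ncard ≤ (I ∩ J).ncard := ncard_le_ncard (subset_inter h0I h0J)
    (hIf.subset inter_subset_left)
  have h3 : rk M (X ∪ Y) ≤ rk M (I ∪ J) := by
    have h4 : X ∪ Y ⊆ M.closure (I ∪ J) := union_subset
      (hI.subset_closure.trans (M.closure_subset_closure subset_union_left))
      (hJ.subset_closure.trans (M.closure_subset_closure subset_union_right))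
    have h5 := rk_mono hM h4
    have h6 : rk M (M.closure (I ∪ J)) = rk M (I ∪ J) := by
      unfold rk
      rw [M.eRk_closure_eq]
    rwa [h6] at h5
  rw [rk_basis hM hI, rk_basis hM hJ, rk_basis hM hI0] at hr
  have h4 : M.Indep (I ∪ J) := by
    obtain ⟨L, hL⟩ := M.exists_isBasis (I ∪ J) hLE
    have h5 := rk_basis hM hL
    have h6 : L = I ∪ J := eq_of_subset_of_ncard_le hL.subset (by omega) (hIf.union hJf)
    rw [← h6]
    exact hL.indep
  exact ⟨I ∪ J, union_subset_union hI.subset hJ.subset, h4, ⟨I, subset_union_left, hI⟩,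
    J, subset_union_right, hJ⟩

/-- **Lattice path matroids have the property.** -/
theorem PathStr.good {f : α → ℕ} {n r : ℕ} {p q : ℕ → ℕ} (h : PathStr M f n r p q)
    (hM : M.E.Finite) : Good M := by
  intro K hK hKs hKc
  have hinj : InjOn f K := h.bij.injOn.mono hK
  have hKf : K.Finite := hM.subset hK
  rcases K.eq_empty_or_nonempty with rfl | hKn
  · -- the empty component
    have he : ∀ x X : Set α, Fam M ∅ x X → X = ∅ := fun x X h => subset_empty_iff.1 h.1
    refine ⟨∅, empty_subset _, ∅, empty_subset _, ?_, ?_, ?_, ?_⟩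
    · intro X _ X' _ h1 h2
      rw [he _ _ h1, he _ _ h2]; left; exact Subset.rfl
    · intro X _ X' _ h1 h2
      rw [he _ _ h1, he _ _ h2]; left; exact Subset.rfl
    · intro X _ X' _ h1 h2
      right; exact empty_subset _
    · intro C _ hC hCK
      exact absurd hC.nonempty (by rw [subset_empty_iff.1 hCK]; exact not_nonempty_empty)
  -- tight intervals
  have tight : ∀ C, M.IsCircuit C → C ⊆ K → ∃ a b : ℕ, (∀ e ∈ C, a ≤ f e ∧ f e < b) ∧ a ≤ b ∧
      rk M {e | e ∈ K ∧ f e < b} + rk M {e | e ∈ K ∧ a ≤ f e} ≤ rk M C + rk M K := by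
    intro C hC hCK
    obtain ⟨a, b, hab, h1, h2⟩ := h.circuit hM hC
    refine ⟨a, b, h1, hab, ?_⟩
    have h3 := rk_circuit hM hC
    have h4 := rk_sep hM hKs (X := {x | x ∈ M.E ∧ f x < b}) (fun x hx => hx.1)
    have h5 := rk_sep hM hKs (X := {x | x ∈ M.E ∧ a ≤ f x}) (fun x hx => hx.1)
    have h6 := rk_sep hM hKs (X := M.E) Subset.rfl
    have e1 : {x | x ∈ M.E ∧ f x < b} ∩ K = {e | e ∈ K ∧ f e < b} := by
      ext e
      simp only [mem_inter_iff, mem_ofPred_eq]
      exact ⟨fun h => ⟨h.2, h.1.2⟩, fun h => ⟨⟨hK h.1, h.2⟩, h.1⟩⟩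
    have e2 : {x | x ∈ M.E ∧ a ≤ f x} ∩ K = {e | e ∈ K ∧ a ≤ f e} := by
      ext e
      simp only [mem_inter_iff, mem_ofPred_eq]
      exact ⟨fun h => ⟨h.2, h.1.2⟩, fun h => ⟨⟨hK h.1, h.2⟩, h.1⟩⟩
    have e3 : M.E ∩ K = K := inter_eq_right.2 hK
    rw [e1] at h4
    rw [e2] at h5
    rw [e3] at h6
    have h7 : rk M (M.E \ K) ≤ rk M ({x | x ∈ M.E ∧ f x < b} \ K) +
        rk M ({x | x ∈ M.E ∧ a ≤ f x} \ K) := by
      refine le_trans (rk_mono hM ?_) (rk_union_le hM _ _)
      intro e he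
      by_cases h8 : f e < b
      · exact Or.inl ⟨⟨he.1, h8⟩, he.2⟩
      · exact Or.inr ⟨⟨he.1, by omega⟩, he.2⟩
    omega
  -- the two families of sets given by a circuit
  have lowfam : ∀ C, M.IsCircuit C → C ⊆ K → ∃ a b : ℕ, (∀ e ∈ C, a ≤ f e ∧ f e < b) ∧ a ≤ b ∧
      rk M {e | e ∈ K ∧ f e < b} + rk M {e | e ∈ K ∧ a ≤ f e} ≤ rk M C + rk M K ∧
      Conn M (M.closure {e | e ∈ K ∧ f e < b} ∩ K) ∧
      Conn M (M.closure {e | e ∈ K ∧ a ≤ f e} ∩ K) ∧
      (M.closure {e | e ∈ K ∧ f e < b} ∩ K) ∩ (M.closure {e | e ∈ K ∧ a ≤ f e} ∩ K) ⊆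
        M.closure C := by
    intro C hC hCK
    obtain ⟨a, b, h1, hab, h2⟩ := tight C hC hCK
    set L : Set α := {e | e ∈ K ∧ f e < b} with hL
    set U : Set α := {e | e ∈ K ∧ a ≤ f e} with hU
    have hLK : L ⊆ K := fun e he => he.1
    have hUK : U ⊆ K := fun e he => he.1
    have hLc : L ⊆ M.closure L ∩ K := subset_inter (M.subset_closure L (hLK.trans hK)) hLK
    have hUc : U ⊆ M.closure U ∩ K := subset_inter (M.subset_closure U (hUK.trans hK)) hUK
    have hCL : C ⊆ L := fun e he => ⟨hCK he, (h1 e he).2⟩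
    have hCU : C ⊆ U := fun e he => ⟨hCK he, (h1 e he).1⟩
    have hcov : K ⊆ L ∪ U := by
      intro e he
      by_cases h8 : f e < b
      · exact Or.inl ⟨he, h8⟩
      · exact Or.inr ⟨he, by omega⟩
    have hcov' : K ⊆ (M.closure L ∩ K) ∪ (M.closure U ∩ K) :=
      hcov.trans (union_subset_union hLc hUc)
    have r1 := rk_closure_inter hM hK hLK
    have r2 := rk_closure_inter hM hK hUK
    refine ⟨a, b, h1, hab, h2, ?_, ?_, ?_⟩
    · apply conn_of_modular hM hK hKc inter_subset_right inter_subset_right hcov' hC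
        (hCL.trans hLc) (hCU.trans hUc)
      rw [r1, r2]; exact h2
    · apply conn_of_modular hM hK hKc (inter_subset_right (s := M.closure U))
        (inter_subset_right (s := M.closure L)) (by rw [union_comm]; exact hcov') hC
        (hCU.trans hUc) (hCL.trans hLc)
      rw [r1, r2]; omega
    · have h3 := rk_submod hM (M.closure L ∩ K) (M.closure U ∩ K)
      have h4 := rk_mono hM hcov'
      have h5 : C ⊆ (M.closure L ∩ K) ∩ (M.closure U ∩ K) :=
        subset_inter (hCL.trans hLc) (hCU.trans hUc)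
      obtain ⟨I, hI, hI2⟩ := exists_basis_subset hM h5
        ((inter_subset_left.trans inter_subset_right).trans hK) (by omega)
      exact hI2.subset_closure.trans (M.closure_subset_closure hI)
  -- the smallest and the largest element
  obtain ⟨s, hsK, hs⟩ := exists_min_image K f hKf hKn
  obtain ⟨t, htK, ht⟩ := exists_max_image K f hKf hKn
  -- members of the families are initial and final segments
  have seg1 : ∀ X, Fam M K {s} X → ∀ w ∈ X, ∀ z ∈ K, f z ≤ f w → z ∈ X := by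
    rintro X ⟨hXK, hsX, hXc, hXfl⟩ w hw z hz hzw
    by_contra hzX
    have hzw' : f z < f w := by
      rcases hzw.eq_or_lt with h1 | h1
      · exact absurd (hinj hz (hXK hw) h1 ▸ hw) hzX
      · exact h1
    obtain ⟨C, hC, hCX, h1, h2⟩ := hXc {e | e ∈ X ∧ f e < f z} (fun e he => he.1)
      ⟨s, by
        refine ⟨hsX rfl, ?_⟩
        rcases (hs z hz).eq_or_lt with h1 | h1
        · exact absurd (hinj hsK hz h1 ▸ hsX rfl) hzX
        · exact h1⟩
      (fun hcon => by
        have h3 := (hcon hw).2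
        omega)
    obtain ⟨a, b, h3, hab, h4, h5, h6, h7⟩ := lowfam C hC (hCX.trans hXK)
    have hCX' : M.closure C ∩ K ⊆ X := by
      obtain ⟨I, hI, hI2⟩ := exists_basis_subset hM (C := X) (X := M.closure X ∩ K)
        (subset_inter (M.subset_closure X (hXK.trans hK)) hXK)
        (inter_subset_right.trans hK) (rk_closure_inter hM hK hXK).le
      exact (inter_subset_inter_left K (M.closure_subset_closure hCX)).trans
        (hXfl _ inter_subset_right
          (subset_inter (M.subset_closure X (hXK.trans hK)) hXK) ⟨I, hI, hI2⟩)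
    apply hzX
    apply hCX'
    refine ⟨?_, hz⟩
    apply h7
    -- `a ≤ f z < b`
    have ha : a ≤ f z := by
      rw [not_disjoint_iff] at h2
      obtain ⟨e, he, he2⟩ := h2
      have h8 := (h3 e he).1
      have h9 := he2.2
      omega
    have hb : f z < b := by
      obtain ⟨e, he, he2⟩ := not_subset.1 h1
      have h8 := (h3 e he).2
      have h9 : ¬ f e < f z := fun h10 => he2 ⟨hCX he, h10⟩
      omega
    have hLK : {e | e ∈ K ∧ f e < b} ⊆ K := fun e he => he.1
    have hUK : {e | e ∈ K ∧ a ≤ f e} ⊆ K := fun e he => he.1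
    exact ⟨⟨M.subset_closure _ (hLK.trans hK) ⟨hz, hb⟩, hz⟩,
      ⟨M.subset_closure _ (hUK.trans hK) ⟨hz, ha⟩, hz⟩⟩
  have seg2 : ∀ X, Fam M K {t} X → ∀ w ∈ X, ∀ z ∈ K, f w ≤ f z → z ∈ X := by
    rintro X ⟨hXK, hsX, hXc, hXfl⟩ w hw z hz hzw
    by_contra hzX
    have hzw' : f w < f z := by
      rcases hzw.eq_or_lt with h1 | h1
      · exact absurd (hinj (hXK hw) hz h1 ▸ hw) hzX
      · exact h1
    obtain ⟨C, hC, hCX, h1, h2⟩ := hXc {e | e ∈ X ∧ f z < f e} (fun e he => he.1)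
      ⟨t, by
        refine ⟨hsX rfl, ?_⟩
        rcases (ht z hz).eq_or_lt with h1 | h1
        · exact absurd (hinj hz htK h1 ▸ hsX rfl) hzX
        · exact h1⟩
      (fun hcon => by
        have h3 := (hcon hw).2
        omega)
    obtain ⟨a, b, h3, hab, h4, h5, h6, h7⟩ := lowfam C hC (hCX.trans hXK)
    have hCX' : M.closure C ∩ K ⊆ X := by
      obtain ⟨I, hI, hI2⟩ := exists_basis_subset hM (C := X) (X := M.closure X ∩ K)
        (subset_inter (M.subset_closure X (hXK.trans hK)) hXK)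
        (inter_subset_right.trans hK) (rk_closure_inter hM hK hXK).le
      exact (inter_subset_inter_left K (M.closure_subset_closure hCX)).trans
        (hXfl _ inter_subset_right
          (subset_inter (M.subset_closure X (hXK.trans hK)) hXK) ⟨I, hI, hI2⟩)
    apply hzX
    apply hCX'
    refine ⟨?_, hz⟩
    apply h7
    have ha : a ≤ f z := by
      obtain ⟨e, he, he2⟩ := not_subset.1 h1
      have h8 := (h3 e he).1
      have h9 : ¬ f z < f e := fun h10 => he2 ⟨hCX he, h10⟩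
      omega
    have hb : f z < b := by
      rw [not_disjoint_iff] at h2
      obtain ⟨e, he, he2⟩ := h2
      have h8 := (h3 e he).2
      have h9 := he2.2
      omega
    have hLK : {e | e ∈ K ∧ f e < b} ⊆ K := fun e he => he.1
    have hUK : {e | e ∈ K ∧ a ≤ f e} ⊆ K := fun e he => he.1
    exact ⟨⟨M.subset_closure _ (hLK.trans hK) ⟨hz, hb⟩, hz⟩,
      ⟨M.subset_closure _ (hUK.trans hK) ⟨hz, ha⟩, hz⟩⟩
  refine ⟨{s}, singleton_subset_iff.2 (hK hsK), {t}, singleton_subset_iff.2 (hK htK), ?_, ?_, ?_, ?_⟩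
  · intro X _ X' _ h1 h2
    by_contra hcon
    push Not at hcon
    obtain ⟨⟨u, hu, hu'⟩, v, hv, hv'⟩ := And.intro (not_subset.1 hcon.1) (not_subset.1 hcon.2)
    rcases le_total (f u) (f v) with h3 | h3
    · exact hu' (seg1 X' h2 v hv u (h1.1 hu) h3)
    · exact hv' (seg1 X h1 u hu v (h2.1 hv) h3)
  · intro X _ X' _ h1 h2
    by_contra hcon
    push Not at hcon
    obtain ⟨⟨u, hu, hu'⟩, v, hv, hv'⟩ := And.intro (not_subset.1 hcon.1) (not_subset.1 hcon.2)
    rcases le_total (f u) (f v) with h3 | h3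
    · exact hv' (seg2 X h1 u hu v (h2.1 hv) h3)
    · exact hu' (seg2 X' h2 v hv u (h1.1 hu) h3)
  · intro X _ Y _ h1 h2
    by_cases h3 : Disjoint X Y
    · exact Or.inl h3
    · right
      rw [not_disjoint_iff] at h3
      obtain ⟨w, hwX, hwY⟩ := h3
      intro e he
      rcases le_total (f e) (f w) with h4 | h4
      · exact Or.inl (seg1 X h1 w hwX e he h4)
      · exact Or.inr (seg2 Y h2 w hwY e he h4)
  · intro C _ hC hCK
    obtain ⟨a, b, h1, hab, h2, h3, h4, h5⟩ := lowfam C hC hCK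
    obtain ⟨c, hc⟩ := hC.nonempty
    have hLK : {e | e ∈ K ∧ f e < b} ⊆ K := fun e he => he.1
    have hUK : {e | e ∈ K ∧ a ≤ f e} ⊆ K := fun e he => he.1
    set L : Set α := {e | e ∈ K ∧ f e < b} with hL
    set U : Set α := {e | e ∈ K ∧ a ≤ f e} with hU
    have hLc : L ⊆ M.closure L ∩ K := subset_inter (M.subset_closure L (hLK.trans hK)) hLK
    have hUc : U ⊆ M.closure U ∩ K := subset_inter (M.subset_closure U (hUK.trans hK)) hUK
    have hCL : C ⊆ L := fun e he => ⟨hCK he, (h1 e he).2⟩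
    have hCU : C ⊆ U := fun e he => ⟨hCK he, (h1 e he).1⟩
    have hsL : {s} ⊆ L := by
      rw [singleton_subset_iff]
      exact ⟨hsK, lt_of_le_of_lt (hs c (hCK hc)) (h1 c hc).2⟩
    have htU : {t} ⊆ U := by
      rw [singleton_subset_iff]
      exact ⟨htK, (h1 c hc).1.trans (ht c (hCK hc))⟩
    have hcov : K ⊆ L ∪ U := by
      intro e he
      by_cases h8 : f e < b
      · exact Or.inl ⟨he, h8⟩
      · exact Or.inr ⟨he, by omega⟩
    have hcov' : K ⊆ (M.closure L ∩ K) ∪ (M.closure U ∩ K) :=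
      hcov.trans (union_subset_union hLc hUc)
    have r1 := rk_closure_inter hM hK hLK
    have r2 := rk_closure_inter hM hK hUK
    have hCXY : C ⊆ (M.closure L ∩ K) ∩ (M.closure U ∩ K) :=
      subset_inter (hCL.trans hLc) (hCU.trans hUc)
    have h6 := rk_submod hM (M.closure L ∩ K) (M.closure U ∩ K)
    have h7 := rk_mono hM hcov'
    have h8 := rk_mono hM hCXY
    refine ⟨M.closure L ∩ K, inter_subset_right.trans hK, M.closure U ∩ K,
      inter_subset_right.trans hK, fam_closure hM hK hLK hsL h3, fam_closure hM hK hUK htU h4,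
      hcov', hCXY, ?_, ?_⟩
    · exact exists_basis_subset hM hCXY
        ((inter_subset_left.trans inter_subset_right).trans hK) (by omega)
    · obtain ⟨L', hL', h9⟩ := exists_common_indep hM
        ((inter_subset_right (s := M.closure L)).trans hK)
        ((inter_subset_right (s := M.closure U)).trans hK) (by omega)
      exact ⟨L', hL'.trans (union_subset inter_subset_right inter_subset_right), h9⟩

end Pool.Agent.V8H17.LPM
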