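import Mathlib
import Pool.Agent.V8H17.LPM.Good

/-!
# From the property to an order of the elements
-/

namespace Pool.Agent.V8H17.LPM

open Set

universe u

variable {α : Type u} {M : Matroid α} {X Y Z A B C I J K S T x y : Set α}

/-- The order given by `f` makes the matroid a lattice path matroid, in terms of ranks. -/
def Ordered {ι : Type*} [LinearOrder ι] (M : Matroid α) (f : α → ι) : Prop :=
  ∀ B ⊆ M.E, B.ncard = rk M M.E →
    (∀ I ⊆ M.E, (∀ e ∈ I, ∀ e' ∈ M.E, f e' ≤ f e → e' ∈ I) →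
      (B ∩ I).ncard ≤ rk M I ∧ (B \ I).ncard ≤ rk M (M.E \ I)) → M.IsBase B

/-- The component of an element: the smallest separator which contains it. -/
def comp (M : Matroid α) (e : α) : Set α := ⋂₀ {S | S ⊆ M.E ∧ Sep M S ∧ e ∈ S}

theorem sep_ground : Sep M M.E := fun _ hC => Or.inl hC.subset_ground

theorem Sep.compl (h : Sep M S) : Sep M (M.E \ S) := by
  intro C hC
  rcases h C hC with h1 | h1
  · right
    exact disjoint_left.2 fun a ha hb => hb.2 (h1 ha)
  · left
    exact subset_sdiff.2 ⟨hC.subset_ground, h1⟩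

theorem Sep.sdiff (h : Sep M S) (hT : Sep M T) : Sep M (S \ T) := by
  intro C hC
  rcases h C hC with h1 | h1
  · rcases hT C hC with h2 | h2
    · right
      exact disjoint_left.2 fun a ha hb => hb.2 (h2 ha)
    · left
      exact subset_sdiff.2 ⟨h1, h2⟩
  · right
    exact h1.mono_right sdiff_subset

theorem sep_sInter {F : Set (Set α)} (h : ∀ S ∈ F, Sep M S) : Sep M (⋂₀ F) := by
  intro C hC
  by_cases h1 : ∀ S ∈ F, C ⊆ S
  · left
    exact subset_sInter h1
  · push Not at h1
    obtain ⟨S, hS, h2⟩ := h1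
    right
    exact ((h S hS C hC).resolve_left h2).mono_right (sInter_subset_of_mem hS)

theorem sep_comp (e : α) : Sep M (comp M e) := sep_sInter fun _ hS => hS.2.1

theorem mem_comp (e : α) : e ∈ comp M e := mem_sInter.2 fun _ hS => hS.2.2

theorem comp_subset {e : α} (he : e ∈ M.E) : comp M e ⊆ M.E :=
  sInter_subset_of_mem ⟨Subset.rfl, sep_ground, he⟩

theorem comp_min {e : α} (hS : S ⊆ M.E) (hs : Sep M S) (he : e ∈ S) : comp M e ⊆ S :=
  sInter_subset_of_mem ⟨hS, hs, he⟩

theorem comp_eq {e e' : α} (he : e ∈ M.E) (h : e' ∈ comp M e) : comp M e' = comp M e := by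
  have he' : e' ∈ M.E := comp_subset he h
  have h1 : comp M e' ⊆ comp M e := comp_min (comp_subset he) (sep_comp e) h
  apply h1.antisymm
  have h2 : e ∈ comp M e' := by
    by_contra hcon
    have h3 := comp_min (sdiff_subset.trans (comp_subset he)) ((sep_comp e).sdiff (sep_comp e'))
      (show e ∈ comp M e \ comp M e' from ⟨mem_comp e, hcon⟩)
    exact (h3 h).2 (mem_comp e')
  exact comp_min (comp_subset he') (sep_comp e') h2

theorem conn_comp {e : α} (he : e ∈ M.E) : Conn M (comp M e) := by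
  intro A hA hAn hcA
  by_contra hcon
  push Not at hcon
  have hAE := hA.trans (comp_subset he)
  have hs : Sep M A := by
    intro C hC
    rcases sep_comp e C hC with h1 | h1
    · by_cases h2 : C ⊆ A
      · exact Or.inl h2
      · exact Or.inr (hcon C hC h1 h2)
    · exact Or.inr (h1.mono_right hA)
  obtain ⟨a, ha⟩ := hAn
  have h1 : comp M a ⊆ A := comp_min hAE hs ha
  rw [comp_eq he (hA ha)] at h1
  exact hcA h1

open Classical in
/-- The parameters of a component. -/
noncomputable def par (M : Matroid α) (K : Set α) : Set α × Set α :=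
  if h : ∃ z : Set α × Set α, GoodAt M K z.1 z.2 then h.choose else (∅, ∅)

theorem par_spec (h : ∃ x ⊆ M.E, ∃ y ⊆ M.E, GoodAt M K x y) :
    GoodAt M K (par M K).1 (par M K).2 := by
  obtain ⟨x, -, y, -, h1⟩ := h
  have h2 : ∃ z : Set α × Set α, GoodAt M K z.1 z.2 := ⟨(x, y), h1⟩
  unfold par
  rw [dif_pos h2]
  exact h2.choose_spec

/-- The chain of the sets which have to be initial segments. -/
def chain (M : Matroid α) (K : Set α) : Set (Set α) :=
  {S | Fam M K (par M K).1 S} ∪ {S | ∃ Y, Fam M K (par M K).2 Y ∧ S = K \ Y}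

theorem chain_sub (hS : S ∈ chain M K) : S ⊆ K := by
  rcases hS with h | ⟨Y, -, rfl⟩
  · exact h.1
  · exact sdiff_subset

theorem chain_finite (hM : M.E.Finite) (hK : K ⊆ M.E) : (chain M K).Finite :=
  (hM.finite_subsets).subset fun _ hS => (chain_sub hS).trans hK

theorem chain_chain (hK : K ⊆ M.E) (h : GoodAt M K (par M K).1 (par M K).2)
    (hS : S ∈ chain M K) (hT : T ∈ chain M K) : S ⊆ T ∨ T ⊆ S := by
  obtain ⟨h1, h2, h3, -⟩ := h
  rcases hS with hS | ⟨Y, hY, rfl⟩
  · rcases hT with hT | ⟨Y', hY', rfl⟩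
    · exact h1 S (hS.1.trans hK) T (hT.1.trans hK) hS hT
    · rcases h3 S (hS.1.trans hK) Y' (hY'.1.trans hK) hS hY' with h4 | h4
      · left
        exact subset_sdiff.2 ⟨hS.1, h4⟩
      · right
        exact sdiff_subset_iff.2 (by rw [union_comm]; exact h4)
  · rcases hT with hT | ⟨Y', hY', rfl⟩
    · rcases h3 T (hT.1.trans hK) Y (hY.1.trans hK) hT hY with h4 | h4
      · right
        exact subset_sdiff.2 ⟨hT.1, h4⟩
      · left
        exact sdiff_subset_iff.2 (by rw [union_comm]; exact h4)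
    · rcases h2 Y (hY.1.trans hK) Y' (hY'.1.trans hK) hY hY' with h4 | h4
      · right
        exact sdiff_subset_sdiff_right h4
      · left
        exact sdiff_subset_sdiff_right h4

/-- The number of members of the chain which do not contain `e`. -/
noncomputable def level (M : Matroid α) (e : α) : ℕ := {S ∈ chain M (comp M e) | e ∉ S}.ncard

theorem level_lt (hM : M.E.Finite) {e e' : α} (he : e ∈ M.E) (hee : comp M e' = comp M e)
    (h : GoodAt M (comp M e) (par M (comp M e)).1 (par M (comp M e)).2)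
    (hS : S ∈ chain M (comp M e)) (heS : e ∈ S) (heS' : e' ∉ S) : level M e < level M e' := by
  unfold level
  rw [hee]
  apply ncard_lt_ncard
  · constructor
    · rintro T ⟨hT, heT⟩
      refine ⟨hT, fun h1 => ?_⟩
      rcases chain_chain (comp_subset he) h hS hT with h2 | h2
      · exact heT (h2 heS)
      · exact heS' (h2 h1)
    · intro hcon
      exact (hcon ⟨hS, heS'⟩).2 heS
  · exact (chain_finite hM (comp_subset he)).subset fun _ h => h.1

/-- The order of the elements. -/
noncomputable def ord (M : Matroid α) (g : α → ℕ) (e : α) : ℕ ×ₗ (ℕ ×ₗ ℕ) :=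
  toLex (sInf (g '' comp M e), toLex (level M e, g e))

theorem ord_inj {g : α → ℕ} (hg : InjOn g M.E) : InjOn (ord M g) M.E := by
  intro e he e' he' h
  unfold ord at h
  have h1 := congrArg (fun z : ℕ ×ₗ (ℕ ×ₗ ℕ) => (ofLex (ofLex z).2).2) h
  simp only [ofLex_toLex] at h1
  exact hg he he' h1

theorem comp_idx {g : α → ℕ} (hg : InjOn g M.E) {e e' : α} (he : e ∈ M.E) (he' : e' ∈ M.E) :
    sInf (g '' comp M e) = sInf (g '' comp M e') ↔ comp M e = comp M e' := by
  constructor
  · intro h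
    have h1 : sInf (g '' comp M e) ∈ g '' comp M e := Nat.sInf_mem ⟨g e, e, mem_comp e, rfl⟩
    have h2 : sInf (g '' comp M e') ∈ g '' comp M e' := Nat.sInf_mem ⟨g e', e', mem_comp e', rfl⟩
    obtain ⟨a, ha, ha2⟩ := h1
    obtain ⟨b, hb, hb2⟩ := h2
    have h3 : a = b := hg (comp_subset he ha) (comp_subset he' hb) (by rw [ha2, hb2, h])
    subst h3
    rw [← comp_eq he ha, ← comp_eq he' hb]
  · intro h
    rw [h]

/-- **A matroid with the property is ordered.** -/
theorem Good.ordered (hM : M.E.Finite) (h : Good M) {g : α → ℕ} (hg : InjOn g M.E) :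
    Ordered M (ord M g) := by
  intro B hBE hBn hB
  rw [base_iff hM]
  refine ⟨?_, hBn⟩
  by_contra hdep
  obtain ⟨C, hCB, hC⟩ := ((M.not_indep_iff hBE).1 hdep).exists_isCircuit_subset
  obtain ⟨e, heC⟩ := hC.nonempty
  have he : e ∈ M.E := hC.subset_ground heC
  set K : Set α := comp M e with hKdef
  have hK : K ⊆ M.E := comp_subset he
  have hKs : Sep M K := sep_comp e
  have hCK : C ⊆ K := (hKs C hC).resolve_right (not_disjoint_iff.2 ⟨e, heC, mem_comp e⟩)
  have hgood : GoodAt M K (par M K).1 (par M K).2 := par_spec (h K hK hKs (conn_comp he))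
  obtain ⟨X, hXE, Y, hYE, hX, hY, hKXY, hCXY, ⟨I', hI', hI'2⟩, L, hLK, hL, ⟨I, hIL, hI⟩, J, hJL, hJ⟩ :=
    hgood.2.2.2 C hC.subset_ground hC hCK
  have hBf : B.Finite := hM.subset hBE
  -- the ranks of `X` and `Y`
  have hr : rk M X + rk M Y ≤ rk M C + rk M K := by
    have hIf : I.Finite := hM.subset (hI.subset.trans hXE)
    have hJf : J.Finite := hM.subset (hJ.subset.trans hYE)
    have h1 : (I ∪ J).ncard + (I ∩ J).ncard = I.ncard + J.ncard :=
      ncard_union_add_ncard_inter I J hIf hJf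
    have h2 : (I ∪ J).ncard ≤ rk M K :=
      ncard_le_rk hM (hL.subset (union_subset hIL hJL)) ((union_subset hIL hJL).trans hLK)
    have h3 : (I ∩ J).ncard ≤ rk M (X ∩ Y) :=
      ncard_le_rk hM (hI.indep.subset inter_subset_left)
        (inter_subset_inter hI.subset hJ.subset)
    have h4 : rk M (X ∩ Y) ≤ rk M C := by
      rw [rk_basis hM hI'2]
      exact ncard_le_rk hM hI'2.indep hI'
    rw [rk_basis hM hI, rk_basis hM hJ]
    omega
  -- the elements before and after the component
  set k0 : ℕ := sInf (g '' comp M e) with hk0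
  set E1 : Set α := {a | a ∈ M.E ∧ sInf (g '' comp M a) < k0} with hE1
  set E3 : Set α := {a | a ∈ M.E ∧ k0 < sInf (g '' comp M a)} with hE3
  have hE1E : E1 ⊆ M.E := fun a ha => ha.1
  have hE3E : E3 ⊆ M.E := fun a ha => ha.1
  have hidx : ∀ a ∈ M.E, (sInf (g '' comp M a) = k0 ↔ a ∈ K) := by
    intro a ha
    rw [hk0, comp_idx hg ha he]
    constructor
    · intro h1
      rw [hKdef, ← h1]
      exact mem_comp a
    · intro h1
      exact comp_eq he h1
  have hd1 : Disjoint E1 K := disjoint_left.2 fun a ha hb => by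
    have := (hidx a ha.1).2 hb
    have h2 := ha.2
    omega
  have hd3 : Disjoint K E3 := disjoint_left.2 fun a hb ha => by
    have := (hidx a ha.1).2 hb
    have h2 := ha.2
    omega
  have hd13 : Disjoint E1 E3 := disjoint_left.2 fun a ha hb => by
    have h1 := ha.2
    have h2 := hb.2
    omega
  have hcover : ∀ a ∈ M.E, a ∈ E1 ∨ a ∈ K ∨ a ∈ E3 := by
    intro a ha
    rcases lt_trichotomy (sInf (g '' comp M a)) k0 with h1 | h1 | h1
    · exact Or.inl ⟨ha, h1⟩
    · exact Or.inr (Or.inl ((hidx a ha).1 h1))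
    · exact Or.inr (Or.inr ⟨ha, h1⟩)
  have hsepP : ∀ P : ℕ → Prop, Sep M {a | a ∈ M.E ∧ P (sInf (g '' comp M a))} := by
    intro P D hD
    by_cases h1 : Disjoint D {a | a ∈ M.E ∧ P (sInf (g '' comp M a))}
    · exact Or.inr h1
    · left
      rw [not_disjoint_iff] at h1
      obtain ⟨a, haD, haE, hPa⟩ := h1
      intro b hb
      have h2 : D ⊆ comp M a :=
        (sep_comp a D hD).resolve_right (not_disjoint_iff.2 ⟨a, haD, mem_comp a⟩)
      refine ⟨hD.subset_ground hb, ?_⟩
      rw [comp_eq haE (h2 hb)]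
      exact hPa
  have hE1s : Sep M E1 := hsepP (fun k => k < k0)
  have hE3s : Sep M E3 := hsepP (fun k => k0 < k)
  -- the order
  have hle : ∀ a b : α, ord M g a ≤ ord M g b → sInf (g '' comp M a) ≤ sInf (g '' comp M b) ∧
      (sInf (g '' comp M a) = sInf (g '' comp M b) → level M a ≤ level M b) := by
    intro a b hab
    unfold ord at hab
    rw [Prod.Lex.toLex_le_toLex] at hab
    rcases hab with h1 | ⟨h1, h2⟩
    · exact ⟨h1.le, fun h2 => absurd h2 h1.ne⟩
    · refine ⟨h1.le, fun _ => ?_⟩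
      rw [Prod.Lex.toLex_le_toLex] at h2
      rcases h2 with h3 | ⟨h3, -⟩
      · exact h3.le
      · exact h3.le
  have hlower : ∀ T ∈ chain M K, ∀ a ∈ E1 ∪ T, ∀ a' ∈ M.E, ord M g a' ≤ ord M g a → a' ∈ E1 ∪ T := by
    intro T hT a ha a' ha' haa
    have h1 := hle a' a haa
    have hTK : T ⊆ K := chain_sub hT
    have haE : a ∈ M.E := by
      rcases ha with ha | ha
      · exact ha.1
      · exact hK (hTK ha)
    by_cases h2 : sInf (g '' comp M a') < k0
    · exact Or.inl ⟨ha', h2⟩
    · right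
      have h3 : a ∈ T := by
        rcases ha with ha | ha
        · have := ha.2
          have := h1.1
          omega
        · exact ha
      have h4 : sInf (g '' comp M a) = k0 := (hidx a haE).2 (hTK h3)
      have h5 : sInf (g '' comp M a') = k0 := by
        have := h1.1
        omega
      have haK : a ∈ K := hTK h3
      have ha'K : a' ∈ K := (hidx a' ha').1 h5
      by_contra h6
      have e1 : comp M a = K := comp_eq he haK
      have e2 : comp M a' = K := comp_eq he ha'K
      have h7 := level_lt hM (e := a) (e' := a') haE (by rw [e1, e2])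
        (by rw [e1]; exact hgood) (by rw [e1]; exact hT) h3 h6
      have h8 := h1.2 (by rw [h4, h5])
      omega
  have hlowerP : ∀ a ∈ E1, ∀ a' ∈ M.E, ord M g a' ≤ ord M g a → a' ∈ E1 := by
    intro a ha a' ha' haa
    exact ⟨ha', lt_of_le_of_lt (hle a' a haa).1 ha.2⟩
  have hlowerQ : ∀ a ∈ E1 ∪ K, ∀ a' ∈ M.E, ord M g a' ≤ ord M g a → a' ∈ E1 ∪ K := by
    intro a ha a' ha' haa
    have h1 := (hle a' a haa).1
    have h2 : sInf (g '' comp M a) ≤ k0 := by
      rcases ha with ha | ha
      · exact ha.2.le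
      · exact ((hidx a (hK ha)).2 ha).le
    rcases hcover a' ha' with h3 | h3 | h3
    · exact Or.inl h3
    · exact Or.inr h3
    · have := h3.2
      omega
  -- ranks
  have hEsplit : M.E \ E1 = K ∪ E3 := by
    ext a
    constructor
    · rintro ⟨h1, h2⟩
      rcases hcover a h1 with h3 | h3
      · exact absurd h3 h2
      · exact h3
    · rintro (h1 | h1)
      · exact ⟨hK h1, fun h2 => disjoint_left.1 hd1 h2 h1⟩
      · exact ⟨hE3E h1, fun h2 => disjoint_left.1 hd13 h2 h1⟩
  have hEsplit2 : M.E \ (E1 ∪ K) = E3 := by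
    ext a
    constructor
    · rintro ⟨h1, h2⟩
      rcases hcover a h1 with h3 | h3 | h3
      · exact absurd (Or.inl h3) h2
      · exact absurd (Or.inr h3) h2
      · exact h3
    · intro h1
      refine ⟨hE3E h1, ?_⟩
      rintro (h2 | h2)
      · exact disjoint_left.1 hd13 h2 h1
      · exact disjoint_left.1 hd3 h2 h1
  have r1 : rk M M.E = rk M E1 + (rk M K + rk M E3) := by
    have h1 := rk_sep hM hE1s (X := M.E) Subset.rfl
    have h2 := rk_sep hM hE3s (X := K ∪ E3) (union_subset hK hE3E)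
    rw [inter_eq_right.2 hE1E, hEsplit] at h1
    rw [inter_eq_right.2 subset_union_right, union_sdiff_right, hd3.sdiff_eq_left] at h2
    omega
  have r2 : ∀ T ⊆ K, rk M (E1 ∪ T) = rk M E1 + rk M T := by
    intro T hT
    have h1 := rk_sep hM hE1s (X := E1 ∪ T) (union_subset hE1E (hT.trans hK))
    rwa [inter_eq_right.2 subset_union_left, union_sdiff_left,
      (hd1.symm.mono_left hT).sdiff_eq_left] at h1
  -- counting
  have cnt : ∀ S T : Set α, Disjoint S T → (B ∩ (S ∪ T)).ncard = (B ∩ S).ncard + (B ∩ T).ncard := by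
    intro S T hST
    rw [inter_union_distrib_left]
    exact ncard_union_eq (hST.mono inter_subset_right inter_subset_right)
      (hBf.subset inter_subset_left) (hBf.subset inter_subset_left)
  have cE : B.ncard = (B ∩ E1).ncard + ((B ∩ K).ncard + (B ∩ E3).ncard) := by
    rw [← cnt K E3 hd3, ← cnt E1 (K ∪ E3) (disjoint_union_right.2 ⟨hd1, hd13⟩)]
    congr 1
    apply (inter_eq_left.2 _).symm
    intro a ha
    exact hcover a (hBE ha)
  have b1 := hB E1 hE1E hlowerP
  have b2 := hB (E1 ∪ K) (union_subset hE1E hK) hlowerQ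
  have b3 := hB (E1 ∪ X) (union_subset hE1E hXE) (hlower X (Or.inl hX))
  have b4 := hB (E1 ∪ K \ Y) (union_subset hE1E (sdiff_subset.trans hK))
    (hlower (K \ Y) (Or.inr ⟨Y, hY, rfl⟩))
  have d1 : B \ (E1 ∪ K) = B ∩ E3 := by
    rw [← hEsplit2]
    ext a
    simp only [mem_sdiff, mem_inter_iff]
    exact ⟨fun h => ⟨h.1, hBE h.1, h.2⟩, fun h => ⟨h.1, h.2.2⟩⟩
  have d2 : B \ E1 = B ∩ (K ∪ E3) := by
    rw [← hEsplit]
    ext a
    simp only [mem_sdiff, mem_inter_iff]
    exact ⟨fun h => ⟨h.1, hBE h.1, h.2⟩, fun h => ⟨h.1, h.2.2⟩⟩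
  have hEY : M.E \ (E1 ∪ K \ Y) = Y ∪ E3 := by
    ext a
    constructor
    · rintro ⟨h1, h2⟩
      rcases hcover a h1 with h3 | h3 | h3
      · exact absurd (Or.inl h3) h2
      · left
        by_contra h4
        exact h2 (Or.inr ⟨h3, h4⟩)
      · exact Or.inr h3
    · rintro (h1 | h1)
      · refine ⟨hYE h1, ?_⟩
        rintro (h2 | h2)
        · exact disjoint_left.1 hd1 h2 (hY.1 h1)
        · exact h2.2 h1
      · refine ⟨hE3E h1, ?_⟩
        rintro (h2 | h2)
        · exact disjoint_left.1 hd13 h2 h1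
        · exact disjoint_left.1 hd3 h2.1 h1
  have d3 : B \ (E1 ∪ K \ Y) = B ∩ (Y ∪ E3) := by
    rw [← hEY]
    ext a
    simp only [mem_sdiff, mem_inter_iff]
    exact ⟨fun h => ⟨h.1, hBE h.1, h.2⟩, fun h => ⟨h.1, h.2.2⟩⟩
  rw [hEsplit, d2, cnt K E3 hd3] at b1
  rw [hEsplit2, d1, cnt E1 K hd1, r2 K Subset.rfl] at b2
  rw [cnt E1 X (hd1.mono_right hX.1), r2 X hX.1] at b3
  rw [d3, hEY, cnt Y E3 (hd3.mono_left hY.1)] at b4
  have r3 : rk M (K ∪ E3) ≤ rk M K + rk M E3 := rk_union_le hM _ _
  have r4 : rk M (Y ∪ E3) ≤ rk M Y + rk M E3 := rk_union_le hM _ _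
  have hXY : (B ∩ X).ncard + (B ∩ Y).ncard = (B ∩ K).ncard + (B ∩ (X ∩ Y)).ncard := by
    have h1 : (B ∩ X ∪ B ∩ Y).ncard + ((B ∩ X) ∩ (B ∩ Y)).ncard =
        (B ∩ X).ncard + (B ∩ Y).ncard :=
      ncard_union_add_ncard_inter _ _ (hBf.subset inter_subset_left) (hBf.subset inter_subset_left)
    rw [← inter_union_distrib_left, ← inter_inter_distrib_left,
      (union_subset hX.1 hY.1).antisymm hKXY] at h1
    exact h1.symm
  have hC2 : C.ncard ≤ (B ∩ (X ∩ Y)).ncard :=
    ncard_le_ncard (subset_inter hCB hCXY) (hBf.subset inter_subset_left)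
  have hC3 := rk_circuit hM hC
  omega

end Pool.Agent.V8H17.LPM
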