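import Mathlib
import Pool.Agent.V8H17.LPM.Order

/-!
# Lattice path matroids are the matroids with the property
-/

namespace Pool.Agent.V8H17.LPM

open Set

universe u

variable {α : Type u} {M : Matroid α} {X Y Z A B C I J K S x y : Set α} {n : ℕ}

/-- The number of the elements of a set before `k` is the height of the corresponding path. -/
theorem ncard_eq_height (e : M.E ≃ Fin n) (g : α → ℕ) (hg : ∀ a : M.E, g a = e a)
    (B : Set M.E) (R : Fin n → Bool) (hR : ∀ a : M.E, a ∈ B ↔ R (e a) = true) (k : ℕ) :
    (Subtype.val '' B ∩ {a | g a < k}).ncard = height R k := by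
  have h1 : Subtype.val '' B ∩ {a | g a < k} = (fun i : Fin n => ((e.symm i : M.E) : α)) ''
      {i : Fin n | i.val < k ∧ R i = true} := by
    ext a
    simp only [mem_inter_iff, mem_image, mem_ofPred_eq]
    constructor
    · rintro ⟨⟨b, hb, rfl⟩, h2⟩
      refine ⟨e b, ⟨?_, (hR b).1 hb⟩, by simp⟩
      rwa [← hg b]
    · rintro ⟨i, ⟨h2, h3⟩, rfl⟩
      refine ⟨⟨e.symm i, ?_, rfl⟩, ?_⟩
      · rw [hR]; simpa using h3
      · rw [hg]; simpa using h2
  rw [h1, ncard_image_of_injective]
  · unfold height
    rw [← ncard_coe_finset]
    congr 1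
    ext i
    simp
  · intro i j hij
    exact e.symm.injective (Subtype.val_injective hij)

theorem height_ge (R : Fin n → Bool) {k : ℕ} (hk : n ≤ k) : height R k = height R n := by
  unfold height
  congr 1
  ext i
  simp only [Finset.mem_filter, Finset.mem_univ, true_and]
  have := i.isLt
  constructor
  · rintro ⟨_, h⟩; exact ⟨this, h⟩
  · rintro ⟨_, h⟩; exact ⟨by omega, h⟩

theorem height_zero (R : Fin n → Bool) : height R 0 = 0 := by
  unfold height
  simp

theorem height_succ (R : Fin n → Bool) {k : ℕ} (hk : k < n) :
    height R (k + 1) = height R k + if R ⟨k, hk⟩ = true then 1 else 0 := by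
  unfold height
  split_ifs with h
  · have h1 : (Finset.univ.filter fun i : Fin n => i.val < k + 1 ∧ R i = true) =
        insert ⟨k, hk⟩ (Finset.univ.filter fun i : Fin n => i.val < k ∧ R i = true) := by
      ext i
      simp only [Finset.mem_filter, Finset.mem_univ, true_and, Finset.mem_insert]
      constructor
      · rintro ⟨h2, h3⟩
        by_cases h4 : i.val = k
        · left; exact Fin.ext h4
        · right; exact ⟨by omega, h3⟩
      · rintro (rfl | ⟨h2, h3⟩)
        · exact ⟨by simp, h⟩
        · exact ⟨by omega, h3⟩
    rw [h1, Finset.card_insert_of_notMem]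
    simp
  · rw [add_zero]
    congr 1
    ext i
    simp only [Finset.mem_filter, Finset.mem_univ, true_and]
    constructor
    · rintro ⟨h2, h3⟩
      refine ⟨?_, h3⟩
      by_contra h4
      have h5 : i = ⟨k, hk⟩ := Fin.ext (by simp; omega)
      rw [h5] at h3
      exact h h3
    · rintro ⟨h2, h3⟩
      exact ⟨by omega, h3⟩

/-- The numbering of the elements given by a bijection with the steps. -/
noncomputable def num (e : M.E ≃ Fin n) (a : α) : ℕ := by
  classical
  exact if h : a ∈ M.E then e ⟨a, h⟩ else 0

theorem num_val (e : M.E ≃ Fin n) (a : M.E) : num e a = e a := by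
  unfold num
  rw [dif_pos a.2]

theorem num_bij (e : M.E ≃ Fin n) : BijOn (num e) M.E (Iio n) := by
  refine ⟨?_, ?_, ?_⟩
  · intro a ha
    have h1 := num_val e ⟨a, ha⟩
    simp only at h1
    rw [h1]
    exact (e ⟨a, ha⟩).isLt
  · intro a ha b hb hab
    have h1 := num_val e ⟨a, ha⟩
    have h2 := num_val e ⟨b, hb⟩
    simp only at h1 h2
    rw [h1, h2] at hab
    have h3 := e.injective (Fin.ext hab)
    exact congrArg Subtype.val h3
  · intro k hk
    refine ⟨e.symm ⟨k, hk⟩, (e.symm ⟨k, hk⟩).2, ?_⟩
    rw [num_val]
    simp

/-- A lattice path matroid has a path structure. -/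
theorem IsLatticePathMatroid.pathStr (h : IsLatticePathMatroid M) :
    ∃ (f : α → ℕ) (n r : ℕ) (p q : ℕ → ℕ), PathStr M f n r p q := by
  obtain ⟨n, m, r, P, Q, hP, hQ, hPQ, e, he⟩ := h
  refine ⟨num e, n, r, height P, height Q, num_bij e, ?_, height_zero Q, hQ.2, ?_⟩
  · intro k hk
    rw [height_succ Q hk]
    split_ifs <;> omega
  · intro B hB
    set B' : Set M.E := {a | (a : α) ∈ B} with hB'
    have hBB : Subtype.val '' B' = B := by
      ext a
      simp only [hB', mem_image, mem_ofPred_eq, Subtype.exists, exists_and_left, exists_prop,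
        exists_eq_right_right]
      exact ⟨fun h => h.1, fun h => ⟨h, hB h⟩⟩
    have h1 := he B'
    rw [hBB] at h1
    rw [h1]
    have hBn : B ∩ {x | num e x < n} = B :=
      inter_eq_left.2 fun a ha => (num_bij e).mapsTo (hB ha)
    constructor
    · rintro ⟨R, hR, hPR, hRQ, heB⟩
      have hR' : ∀ a : M.E, a ∈ B' ↔ R (e a) = true := by
        intro a
        have : e a ∈ e '' B' ↔ e a ∈ {i | R i = true} := by rw [heB]
        rw [e.injective.mem_set_image] at this
        exact this
      have hc : ∀ k, (B ∩ {x | num e x < k}).ncard = height R k := by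
        intro k
        have := ncard_eq_height e (num e) (num_val e) B' R hR' k
        rwa [hBB] at this
      constructor
      · have := hc n
        rw [hBn] at this
        rw [this]
        exact hR.2
      · intro k _
        rw [hc k]
        exact ⟨hPR k, hRQ k⟩
    · classical
      rintro ⟨hr, hk⟩
      set R : Fin n → Bool := fun i => decide (e.symm i ∈ B') with hRdef
      have hR' : ∀ a : M.E, a ∈ B' ↔ R (e a) = true := by
        intro a
        simp [hRdef]
      have hc : ∀ k, (B ∩ {x | num e x < k}).ncard = height R k := by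
        intro k
        have := ncard_eq_height e (num e) (num_val e) B' R hR' k
        rwa [hBB] at this
      have hRn : height R n = r := by
        rw [← hc n, hBn, hr]
      refine ⟨R, ⟨hP.1, hRn⟩, ?_, ?_, ?_⟩
      · intro k
        by_cases hkn : k ≤ n
        · rw [← hc k]
          exact (hk k hkn).1
        · rw [height_ge P (by omega), height_ge R (by omega), hP.2, hRn]
      · intro k
        by_cases hkn : k ≤ n
        · rw [← hc k]
          exact (hk k hkn).2
        · rw [height_ge Q (by omega), height_ge R (by omega), hQ.2, hRn]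
      · ext i
        simp only [mem_image, mem_ofPred_eq]
        constructor
        · rintro ⟨a, ha, rfl⟩
          exact (hR' a).1 ha
        · intro hi
          refine ⟨e.symm i, ?_, by simp⟩
          rw [hR']
          simpa using hi

/-- An ordered matroid is a lattice path matroid. -/
theorem Ordered.isLatticePathMatroid {ι : Type*} [LinearOrder ι] (hM : M.E.Finite) {f : α → ι}
    (hf : InjOn f M.E) (h : Ordered M f) : IsLatticePathMatroid M := by
  classical
  set n := M.E.ncard with hn
  set r := rk M M.E with hr
  -- the numbering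
  set g : α → ℕ := fun a => {b | b ∈ M.E ∧ f b < f a}.ncard with hg
  have hgfin : ∀ a, {b | b ∈ M.E ∧ f b < f a}.Finite := fun a => hM.subset fun b hb => hb.1
  have hlt : ∀ a ∈ M.E, ∀ b ∈ M.E, (g a < g b ↔ f a < f b) := by
    have h1 : ∀ a ∈ M.E, ∀ b ∈ M.E, f a < f b → g a < g b := by
      intro a ha b hb hab
      apply ncard_lt_ncard
      · constructor
        · rintro c ⟨hc, hca⟩
          exact ⟨hc, hca.trans hab⟩
        · intro hcon
          exact lt_irrefl _ (hcon ⟨ha, hab⟩).2
      · exact hgfin b
    intro a ha b hb
    constructor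
    · intro hab
      by_contra hcon
      rcases (not_lt.1 hcon).eq_or_lt with h2 | h2
      · rw [hf hb ha h2] at hab
        omega
      · have := h1 b hb a ha h2
        omega
    · exact h1 a ha b hb
  have hle : ∀ a ∈ M.E, ∀ b ∈ M.E, (g a ≤ g b ↔ f a ≤ f b) := by
    intro a ha b hb
    rw [← not_lt, ← not_lt, hlt b hb a ha]
  have hginj : InjOn g M.E := by
    intro a ha b hb hab
    apply hf ha hb
    exact le_antisymm ((hle a ha b hb).1 hab.le) ((hle b hb a ha).1 hab.ge)
  have hgmaps : MapsTo g M.E (Iio n) := by
    intro a ha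
    apply ncard_lt_ncard _ hM
    constructor
    · exact fun b hb => hb.1
    · intro hcon
      exact lt_irrefl _ (hcon ha).2
  have hgimg : g '' M.E = Iio n := by
    apply eq_of_subset_of_ncard_le hgmaps.image_subset _ (finite_Iio n)
    rw [hginj.ncard_image]
    have : (Iio n).ncard = n := by
      rw [← Nat.card_coe_set_eq]; simp
    rw [this]
  have hgb : BijOn g M.E (Iio n) := ⟨hgmaps, hginj, hgimg.ge⟩
  set e : M.E ≃ Fin n := (hgb.equiv g).trans
    { toFun := fun i => ⟨i.1, i.2⟩
      invFun := fun i => ⟨i.1, i.2⟩
      left_inv := fun i => rfl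
      right_inv := fun i => rfl } with he
  have hge : ∀ a : M.E, g a = e a := fun a => rfl
  -- ranks of initial and final segments
  set L : ℕ → Set α := fun k => {a | a ∈ M.E ∧ g a < k} with hL
  set U : ℕ → Set α := fun k => {a | a ∈ M.E ∧ k ≤ g a} with hU
  have hLE : ∀ k, L k ⊆ M.E := fun k a ha => ha.1
  have hUE : ∀ k, U k ⊆ M.E := fun k a ha => ha.1
  have hLU : ∀ k, M.E \ L k = U k := by
    intro k
    ext a
    simp only [hL, hU, mem_sdiff, mem_ofPred_eq, not_and, not_lt]
    exact ⟨fun h => ⟨h.1, h.2 h.1⟩, fun h => ⟨h.1, fun _ => h.2⟩⟩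
  have hLn : L n = M.E := subset_antisymm (hLE n) fun a ha => ⟨ha, hgmaps ha⟩
  have hU0 : U 0 = M.E := subset_antisymm (hUE 0) fun a ha => ⟨ha, Nat.zero_le _⟩
  have hL0 : L 0 = ∅ := by
    ext a; simp [hL]
  have hUn : U n = ∅ := by
    ext a
    simp only [hU, mem_ofPred_eq, mem_empty_iff_false, iff_false, not_and, not_le]
    intro ha
    exact hgmaps ha
  have rk_empty : rk M ∅ = 0 := by unfold rk; simp
  have hins : ∀ k < n, ∃ a ∈ M.E, L (k + 1) = insert a (L k) ∧ U k = insert a (U (k + 1)) := by
    intro k hk
    obtain ⟨a, ha, hak⟩ := hgb.surjOn (show k ∈ Iio n from hk)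
    refine ⟨a, ha, ?_, ?_⟩
    · ext b
      simp only [hL, mem_ofPred_eq, mem_insert_iff]
      constructor
      · rintro ⟨h1, h2⟩
        by_cases h3 : g b = k
        · left; exact hginj h1 ha (h3.trans hak.symm)
        · right; exact ⟨h1, by omega⟩
      · rintro (rfl | ⟨h1, h2⟩)
        · exact ⟨ha, by omega⟩
        · exact ⟨h1, by omega⟩
    · ext b
      simp only [hU, mem_ofPred_eq, mem_insert_iff]
      constructor
      · rintro ⟨h1, h2⟩
        by_cases h3 : g b = k
        · left; exact hginj h1 ha (h3.trans hak.symm)
        · right; exact ⟨h1, by omega⟩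
      · rintro (rfl | ⟨h1, h2⟩)
        · exact ⟨ha, by omega⟩
        · exact ⟨h1, by omega⟩
  have rk_insert : ∀ (a : α) (S : Set α), a ∈ M.E → rk M (insert a S) ≤ rk M S + 1 := by
    intro a S ha
    have h1 := rk_union_le hM {a} S
    have h2 := rk_le_ncard hM (singleton_subset_iff.2 ha)
    rw [ncard_singleton] at h2
    rw [singleton_union] at h1
    omega
  set Q : Fin n → Bool := fun i => decide (rk M (L i.val) < rk M (L (i.val + 1))) with hQ
  set P : Fin n → Bool := fun i => decide (rk M (U (i.val + 1)) < rk M (U i.val)) with hP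
  have hQh : ∀ k ≤ n, height Q k = rk M (L k) := by
    intro k
    induction k with
    | zero => intro _; rw [height_zero, hL0, rk_empty]
    | succ k ih =>
      intro hk
      obtain ⟨a, ha, h1, -⟩ := hins k (by omega)
      have h2 := rk_insert a (L k) ha
      rw [← h1] at h2
      have h3 : rk M (L k) ≤ rk M (L (k + 1)) := by
        rw [h1]; exact rk_mono hM (subset_insert _ _)
      rw [height_succ Q (by omega), ih (by omega)]
      by_cases h4 : rk M (L k) < rk M (L (k + 1))
      · have h5 : Q ⟨k, by omega⟩ = true := by simp only [hQ, decide_eq_true_eq]; exact h4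
        rw [if_pos h5]
        omega
      · have h5 : ¬ Q ⟨k, by omega⟩ = true := by simp only [hQ, decide_eq_true_eq]; exact h4
        rw [if_neg h5]
        omega
  have hPh : ∀ k ≤ n, height P k + rk M (U k) = r := by
    intro k
    induction k with
    | zero => intro _; rw [height_zero, hU0, zero_add]
    | succ k ih =>
      intro hk
      obtain ⟨a, ha, -, h1⟩ := hins k (by omega)
      have h2 := rk_insert a (U (k + 1)) ha
      rw [← h1] at h2
      have h3 : rk M (U (k + 1)) ≤ rk M (U k) := by
        rw [h1]; exact rk_mono hM (subset_insert _ _)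
      have h6 := ih (by omega)
      rw [height_succ P (by omega)]
      by_cases h4 : rk M (U (k + 1)) < rk M (U k)
      · have h5 : P ⟨k, by omega⟩ = true := by simp only [hP, decide_eq_true_eq]; exact h4
        rw [if_pos h5]
        omega
      · have h5 : ¬ P ⟨k, by omega⟩ = true := by simp only [hP, decide_eq_true_eq]; exact h4
        rw [if_neg h5]
        omega
  have hQn : height Q n = r := by rw [hQh n le_rfl, hLn]
  have hPn : height P n = r := by
    have := hPh n le_rfl
    rwa [hUn, rk_empty, add_zero] at this
  have hrn : r ≤ n := rk_le_ncard hM Subset.rfl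
  have hnm : n = (n - r) + r := by omega
  have hLUcov : ∀ k, L k ∪ U k = M.E := by
    intro k
    rw [← hLU k]
    exact union_sdiff_cancel (hLE k)
  refine ⟨n, n - r, r, P, Q, ⟨hnm, hPn⟩, ⟨hnm, hQn⟩, ?_, e, ?_⟩
  · intro k
    by_cases hk : k ≤ n
    · have h1 := hPh k hk
      rw [hQh k hk]
      have h2 := rk_union_le hM (L k) (U k)
      rw [hLUcov k] at h2
      omega
    · rw [height_ge P (by omega), height_ge Q (by omega), hPn, hQn]
  · intro B'
    set B : Set α := Subtype.val '' B' with hBdef
    have hBE : B ⊆ M.E := by
      rintro _ ⟨a, -, rfl⟩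
      exact a.2
    have hBf : B.Finite := hM.subset hBE
    have hBn : B ∩ {x | g x < n} = B := inter_eq_left.2 fun a ha => hgmaps (hBE ha)
    constructor
    · intro hB
      have hB2 := (base_iff hM).1 hB
      set R : Fin n → Bool := fun i => decide (e.symm i ∈ B') with hRdef
      have hR' : ∀ a : M.E, a ∈ B' ↔ R (e a) = true := by
        intro a
        simp [hRdef]
      have hc : ∀ k, (B ∩ {a | g a < k}).ncard = height R k := ncard_eq_height e g hge B' R hR'
      have hRn : height R n = r := by
        rw [← hc n, hBn, hB2.2]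
      refine ⟨R, ⟨hnm, hRn⟩, ?_, ?_, ?_⟩
      · intro k
        by_cases hkn : k ≤ n
        · rw [← hc k]
          have h1 := hPh k hkn
          have h2 : (B ∩ U k).ncard ≤ rk M (U k) :=
            ncard_le_rk hM (hB2.1.subset inter_subset_left) inter_subset_right
          have h3 : (B ∩ {x | g x < k}).ncard + (B ∩ U k).ncard = B.ncard := by
            rw [← ncard_union_eq _ (hBf.subset inter_subset_left) (hBf.subset inter_subset_left)]
            · congr 1
              rw [← inter_union_distrib_left]
              apply inter_eq_left.2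
              intro a ha
              by_cases h4 : g a < k
              · exact Or.inl h4
              · exact Or.inr ⟨hBE ha, by omega⟩
            · rw [disjoint_left]
              rintro a ⟨_, h4⟩ ⟨_, h5⟩
              have h6 := h5.2
              simp only [mem_ofPred_eq] at h4
              omega
          have h4 := hB2.2
          omega
        · rw [height_ge P (by omega), height_ge R (by omega), hPn, hRn]
      · intro k
        by_cases hkn : k ≤ n
        · rw [← hc k, hQh k hkn]
          apply ncard_le_rk hM (hB2.1.subset inter_subset_left)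
          intro a ha
          exact ⟨hBE ha.1, ha.2⟩
        · rw [height_ge Q (by omega), height_ge R (by omega), hQn, hRn]
      · ext i
        simp only [mem_image, mem_ofPred_eq]
        constructor
        · rintro ⟨a, ha, rfl⟩
          exact (hR' a).1 ha
        · intro hi
          refine ⟨e.symm i, ?_, by simp⟩
          rw [hR']
          simpa using hi
    · rintro ⟨R, hR, hPR, hRQ, heB⟩
      have hR' : ∀ a : M.E, a ∈ B' ↔ R (e a) = true := by
        intro a
        have : e a ∈ e '' B' ↔ e a ∈ {i | R i = true} := by rw [heB]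
        rw [e.injective.mem_set_image] at this
        exact this
      have hc : ∀ k, (B ∩ {a | g a < k}).ncard = height R k := ncard_eq_height e g hge B' R hR'
      have hBr : B.ncard = r := by
        have h1 := hc n
        rw [hBn] at h1
        rw [h1]
        exact hR.2
      apply h B hBE hBr
      intro I hI hIlow
      -- a lower set is an initial segment
      obtain ⟨k, hk, hIk⟩ : ∃ k ≤ n, I = L k := by
        by_cases hIE : I = M.E
        · exact ⟨n, le_rfl, by rw [hIE, hLn]⟩
        · have hne : (M.E \ I).Nonempty := by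
            by_contra hcon
            rw [not_nonempty_iff_eq_empty, sdiff_eq_empty] at hcon
            exact hIE (hI.antisymm hcon)
          obtain ⟨a, ha, hamin⟩ := exists_min_image (M.E \ I) g (hM.subset sdiff_subset) hne
          refine ⟨g a, (hgmaps ha.1).le, ?_⟩
          ext b
          constructor
          · intro hb
            refine ⟨hI hb, ?_⟩
            by_contra hcon
            apply ha.2
            apply hIlow b hb a ha.1
            exact (hle a ha.1 b (hI hb)).1 (not_lt.1 hcon)
          · rintro ⟨hb, hb2⟩
            by_contra hcon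
            have := hamin b ⟨hb, hcon⟩
            omega
      rw [hIk, hLU k]
      have e1 : B ∩ L k = B ∩ {x | g x < k} := by
        ext a
        simp only [hL, mem_inter_iff, mem_ofPred_eq]
        exact ⟨fun h => ⟨h.1, h.2.2⟩, fun h => ⟨h.1, hBE h.1, h.2⟩⟩
      have h1 : (B ∩ L k).ncard = height R k := by rw [e1]; exact hc k
      have h2 : (B ∩ L k).ncard + (B \ L k).ncard = B.ncard := by
        exact ncard_inter_add_ncard_sdiff_eq_ncard B (L k) hBf
      have h3 := hPR k
      have h4 := hRQ k
      have h5 := hPh k hk
      have h6 := hQh k hk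
      constructor
      · omega
      · omega

theorem isLatticePathMatroid_iff_good (hM : M.E.Finite) : IsLatticePathMatroid M ↔ Good M := by
  constructor
  · intro h
    obtain ⟨f, n, r, p, q, h1⟩ := h.pathStr
    exact h1.good hM
  · intro h
    obtain ⟨g, hg⟩ : ∃ g : α → ℕ, InjOn g M.E := countable_iff_exists_injOn.1 hM.countable
    exact (h.ordered hM hg).isLatticePathMatroid hM (ord_inj hg)

end Pool.Agent.V8H17.LPM
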