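import Mathlib
import Pool.Agent.V8H17.LPM.Iso

/-!
# The property of `Good.lean` is expressed by a sentence of `MS₀`
-/

namespace Pool.Agent.V8H17.LPM

open Set

universe u

variable {n : ℕ}

/-- A relation between `n` subsets of the ground set is definable if some formula expresses it in
all matroids. -/
def Definable (R : ∀ (α : Type u) (_ : Matroid α), (Fin n → Set α) → Prop) : Prop :=
  ∃ φ : Formula n, ∀ (α : Type u) (M : Matroid α) (v : Fin n → Set α), (∀ i, v i ⊆ M.E) →
    (φ.Sat M v ↔ R α M v)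

variable {R R' : ∀ (α : Type u) (_ : Matroid α), (Fin n → Set α) → Prop}

theorem Definable.congr (h : Definable R)
    (h' : ∀ (α : Type u) (M : Matroid α) (v : Fin n → Set α), (∀ i, v i ⊆ M.E) →
      (R α M v ↔ R' α M v)) : Definable R' := by
  obtain ⟨φ, hφ⟩ := h
  exact ⟨φ, fun α M v hv => (hφ α M v hv).trans (h' α M v hv)⟩

theorem Definable.not (h : Definable R) : Definable fun α M v => ¬ R α M v := by
  obtain ⟨φ, hφ⟩ := h
  exact ⟨.neg φ, fun α M v hv => not_congr (hφ α M v hv)⟩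

theorem Definable.and (h : Definable R) (h' : Definable R') :
    Definable fun α M v => R α M v ∧ R' α M v := by
  obtain ⟨φ, hφ⟩ := h
  obtain ⟨ψ, hψ⟩ := h'
  exact ⟨.conj φ ψ, fun α M v hv => and_congr (hφ α M v hv) (hψ α M v hv)⟩

theorem Definable.or (h : Definable R) (h' : Definable R') :
    Definable fun α M v => R α M v ∨ R' α M v := by
  obtain ⟨φ, hφ⟩ := h
  obtain ⟨ψ, hψ⟩ := h'
  exact ⟨.disj φ ψ, fun α M v hv => or_congr (hφ α M v hv) (hψ α M v hv)⟩

theorem Definable.imp (h : Definable R) (h' : Definable R') :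
    Definable fun α M v => R α M v → R' α M v := by
  obtain ⟨φ, hφ⟩ := h
  obtain ⟨ψ, hψ⟩ := h'
  exact ⟨.imp φ ψ, fun α M v hv => imp_congr (hφ α M v hv) (hψ α M v hv)⟩

theorem cons_sub {α : Type u} {M : Matroid α} {v : Fin n → Set α} (hv : ∀ i, v i ⊆ M.E)
    {X : Set α} (hX : X ⊆ M.E) (i : Fin (n + 1)) :
    (Fin.cons X v : Fin (n + 1) → Set α) i ⊆ M.E := by
  refine Fin.cases ?_ (fun j => ?_) i
  · simpa only [Fin.cons_zero] using hX
  · simpa only [Fin.cons_succ] using hv j

theorem Definable.ex {R : ∀ (α : Type u) (_ : Matroid α), (Fin (n + 1) → Set α) → Prop}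
    (h : Definable R) :
    Definable fun α M (v : Fin n → Set α) => ∃ X, X ⊆ M.E ∧ R α M (Fin.cons X v) := by
  obtain ⟨φ, hφ⟩ := h
  refine ⟨.ex φ, fun α M v hv => ?_⟩
  exact exists_congr fun X => and_congr_right fun hX => hφ α M _ (cons_sub hv hX)

theorem Definable.all {R : ∀ (α : Type u) (_ : Matroid α), (Fin (n + 1) → Set α) → Prop}
    (h : Definable R) :
    Definable fun α M (v : Fin n → Set α) => ∀ X, X ⊆ M.E → R α M (Fin.cons X v) := by
  obtain ⟨φ, hφ⟩ := h
  refine ⟨.all φ, fun α M v hv => ?_⟩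
  exact forall_congr' fun X => imp_congr_right fun hX => hφ α M _ (cons_sub hv hX)

theorem def_indep (i : Fin n) :
    Definable.{u} fun α M (v : Fin n → Set α) => M.Indep (v i) := ⟨.ind i, fun _ _ _ _ => Iff.rfl⟩

theorem def_sub (i j : Fin n) :
    Definable.{u} fun α _ (v : Fin n → Set α) => v i ⊆ v j := ⟨.sub i j, fun _ _ _ _ => Iff.rfl⟩

theorem def_nonempty (i : Fin n) :
    Definable.{u} fun α _ (v : Fin n → Set α) => (v i).Nonempty := by
  refine (def_sub i.succ 0).all.not.congr fun α M v hv => ?_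
  simp only [Fin.cons_zero, Fin.cons_succ]
  constructor
  · intro h
    by_contra hcon
    rw [not_nonempty_iff_eq_empty] at hcon
    exact h fun X _ => by rw [hcon]; exact empty_subset _
  · rintro ⟨a, ha⟩ h
    exact h ∅ (empty_subset _) ha

theorem def_disjoint (i j : Fin n) :
    Definable.{u} fun α _ (v : Fin n → Set α) => Disjoint (v i) (v j) := by
  refine ((def_sub 0 i.succ).imp ((def_sub 0 j.succ).imp (def_nonempty 0).not)).all.congr
    fun α M v hv => ?_
  simp only [Fin.cons_zero, Fin.cons_succ]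
  constructor
  · intro h
    rw [disjoint_left]
    intro a ha hb
    exact h {a} (singleton_subset_iff.2 (hv i ha)) (singleton_subset_iff.2 ha)
      (singleton_subset_iff.2 hb) (singleton_nonempty a)
  · rintro h X _ h1 h2 ⟨a, ha⟩
    exact disjoint_left.1 h (h1 ha) (h2 ha)

theorem def_cover (i j k : Fin n) :
    Definable.{u} fun α _ (v : Fin n → Set α) => v i ⊆ v j ∪ v k := by
  refine ((def_sub 0 i.succ).imp ((def_disjoint 0 j.succ).imp (def_sub 0 k.succ))).all.congr
    fun α M v hv => ?_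
  simp only [Fin.cons_zero, Fin.cons_succ]
  constructor
  · intro h a ha
    by_cases hj : a ∈ v j
    · exact Or.inl hj
    · right
      have := h {a} (singleton_subset_iff.2 (hv i ha)) (singleton_subset_iff.2 ha)
        (disjoint_singleton_left.2 hj)
      exact singleton_subset_iff.1 this
  · intro h X _ h1 h2 a ha
    exact (h (h1 ha)).resolve_left (disjoint_left.1 h2 ha)

theorem def_inter (i j k : Fin n) :
    Definable.{u} fun α _ (v : Fin n → Set α) => v i = v j ∩ v k := by
  refine ((def_sub i j).and ((def_sub i k).and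
    ((def_sub 0 j.succ).imp ((def_sub 0 k.succ).imp (def_sub 0 i.succ))).all)).congr
    fun α M v hv => ?_
  simp only [Fin.cons_zero, Fin.cons_succ]
  constructor
  · rintro ⟨h1, h2, h3⟩
    exact (subset_inter h1 h2).antisymm
      (h3 (v j ∩ v k) (inter_subset_left.trans (hv j)) inter_subset_left inter_subset_right)
  · intro h
    rw [h]
    exact ⟨inter_subset_left, inter_subset_right, fun X _ h1 h2 => subset_inter h1 h2⟩

theorem def_circuit (i : Fin n) :
    Definable.{u} fun α M (v : Fin n → Set α) => M.IsCircuit (v i) := by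
  refine ((def_indep i).not.and
    ((def_sub 0 i.succ).imp ((def_sub i.succ 0).not.imp (def_indep 0))).all).congr
    fun α M v hv => ?_
  simp only [Fin.cons_zero, Fin.cons_succ]
  rw [Matroid.isCircuit_iff_forall_ssubset, ← M.not_indep_iff (hv i)]
  refine and_congr_right fun _ => ⟨fun h I hI => ?_, fun h X _ h1 h2 => h ⟨h1, h2⟩⟩
  exact h I (hI.1.trans (hv i)) hI.1 hI.2

theorem def_basis (i j : Fin n) :
    Definable.{u} fun α M (v : Fin n → Set α) => M.IsBasis (v i) (v j) := by
  refine ((def_indep i).and ((def_sub i j).and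
    ((def_indep 0).imp ((def_sub i.succ 0).imp ((def_sub 0 j.succ).imp (def_sub 0 i.succ)))).all)).congr
    fun α M v hv => ?_
  simp only [Fin.cons_zero, Fin.cons_succ]
  rw [M.isBasis_iff (hv j)]
  refine and_congr_right fun _ => and_congr_right fun _ => ⟨fun h J h1 h2 h3 => ?_, fun h X _ h1 h2 h3 => ?_⟩
  · exact h2.antisymm (h J h1.subset_ground h1 h2 h3)
  · exact (h X h1 h2 h3).ge

theorem def_conn (i : Fin n) :
    Definable.{u} fun α M (v : Fin n → Set α) => Conn M (v i) := by
  refine ((def_sub 0 i.succ).imp ((def_nonempty 0).imp ((def_sub i.succ 0).not.imp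
    ((def_circuit 0).and ((def_sub 0 i.succ.succ).and ((def_sub 0 (Fin.succ 0)).not.and
      (def_disjoint 0 (Fin.succ 0)).not))).ex))).all.congr
    fun α M v hv => ?_
  simp only [Fin.cons_zero, Fin.cons_succ]
  unfold Conn
  constructor
  · intro h A hA hAn hcA
    obtain ⟨C, -, h1⟩ := h A (hA.trans (hv i)) hA hAn hcA
    exact ⟨C, h1⟩
  · intro h A _ hA hAn hcA
    obtain ⟨C, h1⟩ := h A hA hAn hcA
    exact ⟨C, h1.1.subset_ground, h1⟩

theorem def_sep (i : Fin n) :
    Definable.{u} fun α M (v : Fin n → Set α) => Sep M (v i) := by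
  refine ((def_circuit 0).imp ((def_sub 0 i.succ).or (def_disjoint 0 i.succ))).all.congr
    fun α M v hv => ?_
  simp only [Fin.cons_zero, Fin.cons_succ]
  exact ⟨fun h C hC => h C hC.subset_ground hC, fun h C _ hC => h C hC⟩

/-- `∃ I ⊆ v i, M.IsBasis I (v j)`. -/
theorem def_spans (i j : Fin n) :
    Definable.{u} fun α M (v : Fin n → Set α) => ∃ I ⊆ v i, M.IsBasis I (v j) := by
  refine ((def_sub 0 i.succ).and (def_basis 0 j.succ)).ex.congr fun α M v hv => ?_
  simp only [Fin.cons_zero, Fin.cons_succ]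
  exact ⟨fun ⟨I, _, h1, h2⟩ => ⟨I, h1, h2⟩, fun ⟨I, h1, h2⟩ => ⟨I, h1.trans (hv i), h1, h2⟩⟩

theorem def_fam (i j k : Fin n) :
    Definable.{u} fun α M (v : Fin n → Set α) => Fam M (v i) (v j) (v k) := by
  refine ((def_sub k i).and ((def_sub j k).and ((def_conn k).and
    ((def_sub 0 i.succ).imp ((def_sub k.succ 0).imp ((def_spans k.succ 0).imp
      (def_sub 0 k.succ)))).all))).congr fun α M v hv => ?_
  simp only [Fin.cons_zero, Fin.cons_succ]
  unfold Fam
  refine and_congr_right fun _ => and_congr_right fun _ => and_congr_right fun _ =>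
    ⟨fun h Z hZ => h Z (hZ.trans (hv i)) hZ, fun h Z _ hZ => h Z hZ⟩

theorem def_goodAt (i j k : Fin n) :
    Definable.{u} fun α M (v : Fin n → Set α) => GoodAt M (v i) (v j) (v k) := by
  have h1 : ∀ i j : Fin n, Definable.{u} fun α M (v : Fin n → Set α) =>
      ∀ X ⊆ M.E, ∀ X' ⊆ M.E, Fam M (v i) (v j) X → Fam M (v i) (v j) X' → X ⊆ X' ∨ X' ⊆ X := by
    intro i j
    refine ((def_fam i.succ.succ j.succ.succ (Fin.succ 0)).imp
      ((def_fam i.succ.succ j.succ.succ 0).imp
        ((def_sub (Fin.succ 0) 0).or (def_sub 0 (Fin.succ 0))))).all.all.congr fun α M v hv => ?_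
    simp only [Fin.cons_zero, Fin.cons_succ]
  have h2 : Definable.{u} fun α M (v : Fin n → Set α) =>
      ∀ X ⊆ M.E, ∀ Y ⊆ M.E, Fam M (v i) (v j) X → Fam M (v i) (v k) Y →
        Disjoint X Y ∨ v i ⊆ X ∪ Y := by
    refine ((def_fam i.succ.succ j.succ.succ (Fin.succ 0)).imp
      ((def_fam i.succ.succ k.succ.succ 0).imp
        ((def_disjoint (Fin.succ 0) 0).or (def_cover i.succ.succ (Fin.succ 0) 0)))).all.all.congr
        fun α M v hv => ?_
    simp only [Fin.cons_zero, Fin.cons_succ]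
  have h3 : Definable.{u} fun α M (v : Fin n → Set α) =>
      ∀ C ⊆ M.E, M.IsCircuit C → C ⊆ v i → ∃ X ⊆ M.E, ∃ Y ⊆ M.E, Fam M (v i) (v j) X ∧
        Fam M (v i) (v k) Y ∧ v i ⊆ X ∪ Y ∧ C ⊆ X ∩ Y ∧ (∃ I ⊆ C, M.IsBasis I (X ∩ Y)) ∧
        ∃ L ⊆ v i, M.Indep L ∧ (∃ I ⊆ L, M.IsBasis I X) ∧ ∃ J ⊆ L, M.IsBasis J Y := by
    -- the variables are `Y = 0`, `X = 1`, `C = 2`
    have h4 : Definable.{u} fun α M (v : Fin (n + 1 + 1 + 1) → Set α) =>
        ∃ L ⊆ v i.succ.succ.succ, M.Indep L ∧ (∃ I ⊆ L, M.IsBasis I (v (Fin.succ 0))) ∧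
          ∃ J ⊆ L, M.IsBasis J (v 0) := by
      refine ((def_sub 0 i.succ.succ.succ.succ).and ((def_indep 0).and
        ((def_spans 0 (Fin.succ (Fin.succ 0))).and (def_spans 0 (Fin.succ 0))))).ex.congr
        fun α M v hv => ?_
      simp only [Fin.cons_zero, Fin.cons_succ]
      exact ⟨fun ⟨L, _, h⟩ => ⟨L, h⟩, fun ⟨L, h⟩ => ⟨L, h.1.trans (hv _), h⟩⟩
    have h5 : Definable.{u} fun α M (v : Fin (n + 1 + 1 + 1) → Set α) =>
        ∃ I ⊆ v (Fin.succ (Fin.succ 0)), M.IsBasis I (v (Fin.succ 0) ∩ v 0) := by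
      refine ((def_inter 0 (Fin.succ (Fin.succ 0)) (Fin.succ 0)).and
        (def_spans (Fin.succ (Fin.succ (Fin.succ 0))) 0)).ex.congr fun α M v hv => ?_
      simp only [Fin.cons_zero, Fin.cons_succ]
      constructor
      · rintro ⟨Z, _, rfl, h⟩
        exact h
      · intro h
        exact ⟨_, inter_subset_left.trans (hv _), rfl, h⟩
    refine ((def_circuit 0).imp ((def_sub 0 i.succ).imp
      ((def_fam i.succ.succ.succ j.succ.succ.succ (Fin.succ 0)).and
      ((def_fam i.succ.succ.succ k.succ.succ.succ 0).and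
      ((def_cover i.succ.succ.succ (Fin.succ 0) 0).and
      (((def_sub (Fin.succ (Fin.succ 0)) (Fin.succ 0)).and
        (def_sub (Fin.succ (Fin.succ 0)) 0)).and
      (h5.and h4))))).ex.ex)).all.congr fun α M v hv => ?_
    simp only [Fin.cons_zero, Fin.cons_succ]
    simp only [subset_inter_iff]
  refine ((h1 i j).and ((h1 i k).and (h2.and h3))).congr fun α M v hv => ?_
  exact Iff.rfl

theorem def_good : Definable.{u} (n := 0) fun _ M _ => Good M := by
  refine ((def_sep 0).imp ((def_conn 0).imp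
    (def_goodAt (Fin.succ (Fin.succ 0)) (Fin.succ 0) 0).ex.ex)).all.congr fun α M v hv => ?_
  simp only [Fin.cons_zero, Fin.cons_succ]
  exact Iff.rfl

/-- **Some sentence of `MS₀` characterises the lattice path matroids.** -/
theorem exists_sentence : ∃ φ : Sentence, ∀ (α : Type u) (M : Matroid α), M.E.Finite →
    (Models M φ ↔ IsLatticePathMatroid M) := by
  obtain ⟨φ, hφ⟩ := def_good.{u}
  refine ⟨φ, fun α M hM => ?_⟩
  rw [isLatticePathMatroid_iff_good hM]
  exact hφ α M Fin.elim0 (fun i => i.elim0)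

end Pool.Agent.V8H17.LPM
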